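import Pool.Agent.H53.DS.Basic

/-! Automorphisms of the lattice of r.e. sets. -/

namespace Pool.Agent.H53.DS

/-- the lattice of r.e. sets -/
abbrev T := {A : Set ℕ // REPred fun n : ℕ => n ∈ A}

theorem map_mono' (Φ : T ≃o T) {x y : T} (h : x.val ⊆ y.val) : (Φ x).val ⊆ (Φ y).val :=
  Φ.monotone (show x ≤ y from h)

theorem map_union (Φ : T ≃o T) (x y z : T) (h : z.val = x.val ∪ y.val) :
    (Φ z).val = (Φ x).val ∪ (Φ y).val := by
  apply Set.Subset.antisymm
  · let w : T := ⟨(Φ x).val ∪ (Φ y).val, re_union (Φ x).2 (Φ y).2⟩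
    have h1 : x ≤ Φ.symm w := by
      rw [OrderIso.le_symm_apply]
      exact Set.subset_union_left (s := (Φ x).val)
    have h2 : y ≤ Φ.symm w := by
      rw [OrderIso.le_symm_apply]
      exact Set.subset_union_right (s := (Φ x).val)
    have h3 : z ≤ Φ.symm w := by
      change z.val ⊆ (Φ.symm w).val
      rw [h]
      exact Set.union_subset h1 h2
    rw [OrderIso.le_symm_apply] at h3
    exact h3
  · apply Set.union_subset
    · exact map_mono' Φ (by rw [h]; exact Set.subset_union_left)
    · exact map_mono' Φ (by rw [h]; exact Set.subset_union_right)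

theorem map_inter (Φ : T ≃o T) (x y z : T) (h : z.val = x.val ∩ y.val) :
    (Φ z).val = (Φ x).val ∩ (Φ y).val := by
  apply Set.Subset.antisymm
  · apply Set.subset_inter
    · exact map_mono' Φ (by rw [h]; exact Set.inter_subset_left)
    · exact map_mono' Φ (by rw [h]; exact Set.inter_subset_right)
  · let w : T := ⟨(Φ x).val ∩ (Φ y).val, re_inter (Φ x).2 (Φ y).2⟩
    have h1 : Φ.symm w ≤ x := by
      rw [OrderIso.symm_apply_le]
      exact Set.inter_subset_left (s := (Φ x).val)
    have h2 : Φ.symm w ≤ y := by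
      rw [OrderIso.symm_apply_le]
      exact Set.inter_subset_right (s := (Φ x).val)
    have h3 : Φ.symm w ≤ z := by
      change (Φ.symm w).val ⊆ z.val
      rw [h]
      exact Set.subset_inter h1 h2
    rw [OrderIso.symm_apply_le] at h3
    exact h3

theorem map_empty (Φ : T ≃o T) (x : T) (h : x.val = ∅) : (Φ x).val = ∅ := by
  let w : T := ⟨∅, re_finite Set.finite_empty⟩
  have h1 : x ≤ Φ.symm w := by
    change x.val ⊆ _
    rw [h]
    exact Set.empty_subset _
  rw [OrderIso.le_symm_apply] at h1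
  exact Set.subset_empty_iff.1 h1

theorem map_univ (Φ : T ≃o T) (x : T) (h : x.val = Set.univ) : (Φ x).val = Set.univ := by
  let w : T := ⟨Set.univ, re_univ⟩
  have h1 : Φ.symm w ≤ x := by
    change _ ⊆ x.val
    rw [h]
    exact Set.subset_univ _
  rw [OrderIso.symm_apply_le] at h1
  exact Set.univ_subset_iff.1 h1

theorem map_singleton (Φ : T ≃o T) (x : T) {a : ℕ} (h : x.val = {a}) : (Φ x).val.Finite := by
  rcases Set.eq_empty_or_nonempty (Φ x).val with h1 | ⟨b, hb⟩
  · rw [h1]
    exact Set.finite_empty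
  · let w : T := ⟨{b}, re_finite (Set.finite_singleton b)⟩
    have h2 : w ≤ Φ x := by
      change ({b} : Set ℕ) ⊆ _
      exact Set.singleton_subset_iff.2 hb
    have h3 : Φ.symm w ≤ x := by
      rw [OrderIso.symm_apply_le]
      exact h2
    have h4 : (Φ.symm w).val ⊆ {a} := by
      rw [← h]
      exact h3
    rcases Set.subset_singleton_iff_eq.1 h4 with h5 | h5
    · exfalso
      have h6 := map_empty Φ (Φ.symm w) h5
      rw [OrderIso.apply_symm_apply] at h6
      exact Set.singleton_ne_empty b h6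
    · have h6 : Φ.symm w = x := Subtype.ext (by rw [h5, h])
      have h7 : w = Φ x := by rw [← h6, OrderIso.apply_symm_apply]
      rw [← h7]
      exact Set.finite_singleton b

theorem map_finite (Φ : T ≃o T) (x : T) (h : x.val.Finite) : (Φ x).val.Finite := by
  obtain ⟨A, hA⟩ := x
  change A.Finite at h
  induction A, h using Set.Finite.induction_on with
  | empty =>
    rw [map_empty Φ _ rfl]
    exact Set.finite_empty
  | @insert a s _ hs ih =>
    have h1 := map_union Φ ⟨{a}, re_finite (Set.finite_singleton a)⟩ ⟨s, re_finite hs⟩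
      ⟨insert a s, hA⟩ (Set.insert_eq a s)
    rw [h1]
    exact (map_singleton Φ _ rfl).union (ih _)

theorem map_recu (Φ : T ≃o T) (x : T) (h : Recu x.val) : Recu (Φ x).val := by
  refine ⟨(Φ x).2, ?_⟩
  let y : T := ⟨x.valᶜ, h.2⟩
  have h1 := map_univ Φ ⟨Set.univ, re_univ⟩ rfl
  rw [map_union Φ x y ⟨Set.univ, re_univ⟩ (Set.union_compl_self _).symm] at h1
  have h2 := map_empty Φ ⟨∅, re_finite Set.finite_empty⟩ rfl
  rw [map_inter Φ x y ⟨∅, re_finite Set.finite_empty⟩ (Set.inter_compl_self _).symm] at h2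
  have h3 : (Φ x).valᶜ = (Φ y).val := by
    ext a
    have h4 : a ∈ (Φ x).val ∪ (Φ y).val := by rw [h1]; trivial
    have h5 : a ∉ (Φ x).val ∩ (Φ y).val := by rw [h2]; simp
    simp only [Set.mem_union, Set.mem_inter_iff, Set.mem_compl_iff] at *
    tauto
  rw [h3]
  exact (Φ y).2

theorem map_cofinite (Φ : T ≃o T) (x : T) (h : (x.valᶜ).Finite) : ((Φ x).valᶜ).Finite := by
  let y : T := ⟨x.valᶜ, re_finite h⟩
  have h1 := map_univ Φ ⟨Set.univ, re_univ⟩ rfl
  rw [map_union Φ x y ⟨Set.univ, re_univ⟩ (Set.union_compl_self _).symm] at h1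
  refine (map_finite Φ y h).subset ?_
  intro a ha
  have h4 : a ∈ (Φ x).val ∪ (Φ y).val := by rw [h1]; trivial
  rcases h4 with h4 | h4
  · exact absurd h4 ha
  · exact h4

/-- maximal sets -/
def IsMax (M : Set ℕ) : Prop :=
  (Mᶜ).Infinite ∧ ∀ V, RE V → (Mᶜ ∩ V).Finite ∨ (Mᶜ \ V).Finite

theorem map_isMax (Φ : T ≃o T) (x : T) (h : IsMax x.val) : IsMax (Φ x).val := by
  constructor
  · intro hfin
    apply h.1
    have := map_cofinite Φ.symm (Φ x) hfin
    rwa [OrderIso.symm_apply_apply] at this
  · intro V hV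
    let v : T := ⟨V, hV⟩
    rcases h.2 _ (Φ.symm v).2 with h1 | h1
    · left
      let n : T := ⟨_, re_finite h1⟩
      have hn := map_finite Φ n h1
      let u : T := ⟨x.val ∪ n.val, re_union x.2 n.2⟩
      have h2 : Φ.symm v ≤ u := by
        intro a ha
        by_cases hx : a ∈ x.val
        · exact Or.inl hx
        · exact Or.inr ⟨hx, ha⟩
      rw [OrderIso.symm_apply_le] at h2
      have h3 : (Φ u).val = (Φ x).val ∪ (Φ n).val := map_union Φ x n u rfl
      refine hn.subset ?_
      rintro a ⟨ha1, ha2⟩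
      have h4 : a ∈ (Φ u).val := h2 ha2
      rw [h3] at h4
      rcases h4 with h4 | h4
      · exact absurd h4 ha1
      · exact h4
    · right
      let n : T := ⟨_, re_finite h1⟩
      have hn := map_finite Φ n h1
      let u : T := ⟨x.val ∪ n.val, re_union x.2 n.2⟩
      have h3 : (Φ u).val = (Φ x).val ∪ (Φ n).val := map_union Φ x n u rfl
      have h4 := map_union Φ u (Φ.symm v) ⟨Set.univ, re_univ⟩ (by
        ext a
        simp only [Set.mem_univ, true_iff]
        by_cases hx : a ∈ x.val
        · exact Or.inl (Or.inl hx)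
        · by_cases hv : a ∈ (Φ.symm v).val
          · exact Or.inr hv
          · exact Or.inl (Or.inr ⟨hx, hv⟩))
      rw [map_univ Φ _ rfl, h3, OrderIso.apply_symm_apply] at h4
      refine hn.subset ?_
      rintro a ⟨ha1, ha2⟩
      have h5 : a ∈ ((Φ x).val ∪ (Φ n).val) ∪ v.val := by rw [← h4]; trivial
      rcases h5 with (h5 | h5) | h5
      · exact absurd h5 ha1
      · exact h5
      · exact absurd h5 ha2

end Pool.Agent.H53.DS
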