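import Mathlib

/-! Basic facts on recursively enumerable sets of natural numbers. -/

namespace Pool.Agent.H53.DS

open Nat.Partrec Nat.Partrec.Code

/-- recursively enumerable sets -/
abbrev RE (A : Set ℕ) : Prop := REPred (fun n : ℕ => n ∈ A)

/-- recursive sets -/
def Recu (A : Set ℕ) : Prop := RE A ∧ RE Aᶜ

/-- the value of the `e`-th partial recursive function at `x` computed within `s` steps -/
def ph (e x s : ℕ) : Option ℕ := evaln s (Denumerable.ofNat Code e) x

/-- `x` has been enumerated into the `e`-th r.e. set within `s` steps -/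
def wb (e x s : ℕ) : Bool := (ph e x s).isSome

/-- the `e`-th r.e. set -/
def W (e : ℕ) : Set ℕ := {x | ∃ s, wb e x s = true}

theorem ph_mono {e x s t v : ℕ} (h : s ≤ t) (hv : ph e x s = some v) : ph e x t = some v :=
  evaln_mono h hv

theorem wb_mono {e x s t : ℕ} (h : s ≤ t) (hw : wb e x s = true) : wb e x t = true := by
  unfold wb at *
  rw [Option.isSome_iff_exists] at hw ⊢
  obtain ⟨v, hv⟩ := hw
  exact ⟨v, ph_mono h hv⟩

theorem wb_zero (e x : ℕ) : wb e x 0 = false := by
  simp [wb, ph, evaln]

theorem wb_lt {e x s : ℕ} (h : wb e x s = true) : x < s := by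
  unfold wb at h
  rw [Option.isSome_iff_exists] at h
  obtain ⟨v, hv⟩ := h
  exact evaln_bound hv

theorem primrec_ph : Primrec fun p : ℕ × ℕ × ℕ => ph p.1 p.2.1 p.2.2 :=
  primrec_evaln.comp (((Primrec.snd.comp Primrec.snd).pair
    ((Primrec.ofNat Code).comp Primrec.fst)).pair (Primrec.fst.comp Primrec.snd))

theorem primrec_wb : Primrec fun p : ℕ × ℕ × ℕ => wb p.1 p.2.1 p.2.2 :=
  Primrec.option_isSome.comp primrec_ph

section compose

variable {α : Type*} [Primcodable α]

theorem pred_wb {e x s : α → ℕ} (he : Primrec e) (hx : Primrec x) (hs : Primrec s) :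
    PrimrecPred fun a => wb (e a) (x a) (s a) = true :=
  Primrec.eq.comp (primrec_wb.comp (he.pair (hx.pair hs))) (Primrec.const true)

theorem pred_ph {e x s v : α → ℕ} (he : Primrec e) (hx : Primrec x) (hs : Primrec s)
    (hv : Primrec v) : PrimrecPred fun a => ph (e a) (x a) (s a) = some (v a) :=
  Primrec.eq.comp (primrec_ph.comp (he.pair (hx.pair hs))) (Primrec.option_some.comp hv)

theorem pred_exists_lt {f : α → ℕ} {P : α × ℕ → Prop} (hf : Primrec f) (hP : PrimrecPred P) :
    PrimrecPred fun a => ∃ x < f a, P (a, x) := by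
  have h1 : PrimrecRel fun (x : ℕ) (a : α) => P (a, x) :=
    hP.comp (Primrec.snd.pair Primrec.fst)
  exact (h1.exists_mem_list.comp (Primrec.list_range.comp hf) Primrec.id).of_eq (by simp)

theorem pred_forall_lt {f : α → ℕ} {P : α × ℕ → Prop} (hf : Primrec f) (hP : PrimrecPred P) :
    PrimrecPred fun a => ∀ x < f a, P (a, x) := by
  have h1 : PrimrecRel fun (x : ℕ) (a : α) => P (a, x) :=
    hP.comp (Primrec.snd.pair Primrec.fst)
  exact (h1.forall_mem_list.comp (Primrec.list_range.comp hf) Primrec.id).of_eq (by simp)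

end compose

theorem comp_exists_lt {α : Type*} [Primcodable α] {f : α → ℕ} {P : α × ℕ → Prop}
    (hf : Computable f) (hP : ComputablePred P) :
    ComputablePred fun a => ∃ x < f a, P (a, x) := by
  classical
  have h1 : Computable fun a => (Nat.rec false (fun m ih => ih || decide (P (a, m))) (f a) : Bool) :=
    Computable.nat_rec hf (Computable.const false)
      ((Primrec.or.to_comp.comp (Computable.snd.comp Computable.snd)
        (hP.decide.comp (Computable.fst.pair (Computable.fst.comp Computable.snd)))).to₂)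
  have h2 : ∀ a n, (Nat.rec false (fun m ih => ih || decide (P (a, m))) n : Bool) = true ↔
      ∃ x < n, P (a, x) := by
    intro a n
    induction n with
    | zero => simp
    | succ n ih =>
      simp only [Bool.or_eq_true, decide_eq_true_eq, ih]
      constructor
      · rintro (⟨x, hx, h⟩ | h)
        · exact ⟨x, by omega, h⟩
        · exact ⟨n, by omega, h⟩
      · rintro ⟨x, hx, h⟩
        rcases Nat.lt_succ_iff_lt_or_eq.1 hx with h' | rfl
        · exact Or.inl ⟨x, h', h⟩
        · exact Or.inr h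
  rw [ComputablePred.computable_iff]
  exact ⟨_, h1, funext fun a => propext (h2 a (f a)).symm⟩

/-- projections of computable relations are r.e. -/
theorem re_exists {p : ℕ × ℕ → Prop} (h : ComputablePred p) : RE {x | ∃ s, p (x, s)} := by
  classical
  have h2 : Partrec (fun x ↦ Nat.rfind fun n => Part.some (decide (p (x, n)))) :=
    Partrec.rfind h.decide.partrec
  refine h2.dom_re.of_eq fun x => ?_
  constructor
  · rintro ⟨n, hn, -⟩
    exact ⟨n, by simpa using hn⟩
  · rintro ⟨n, hn⟩
    exact ⟨n, by simpa using hn, fun {_} _ => trivial⟩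

theorem re_exists' {p : ℕ × ℕ → Prop} (h : PrimrecPred p) : RE {x | ∃ s, p (x, s)} :=
  re_exists h.computablePred

theorem re_W (e : ℕ) : RE (W e) :=
  re_exists' (pred_wb (Primrec.const e) Primrec.fst Primrec.snd)

theorem re_iff {A : Set ℕ} : RE A ↔ ∃ e, A = W e := by
  constructor
  · intro h
    let g : ℕ →. ℕ := fun n => (Part.assert (n ∈ A) fun _ => Part.some ()).map fun _ => 0
    have h1 : Nat.Partrec g := by
      rw [← Partrec.nat_iff]
      exact Partrec.map h (Computable.const 0).to₂
    obtain ⟨c, hc⟩ := exists_code.1 h1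
    refine ⟨Encodable.encode c, ?_⟩
    ext x
    simp only [W, Set.mem_ofPred_eq, wb, ph, Denumerable.ofNat_encode, Option.isSome_iff_exists]
    have h2 : x ∈ A ↔ (eval c x).Dom := by
      rw [hc]
      exact ⟨fun h => ⟨h, trivial⟩, fun h => h.1⟩
    rw [h2, Part.dom_iff_mem]
    constructor
    · rintro ⟨y, hy⟩
      obtain ⟨k, hk⟩ := evaln_complete.1 hy
      exact ⟨k, y, hk⟩
    · rintro ⟨s, v, hv⟩
      exact ⟨v, evaln_sound hv⟩
  · rintro ⟨e, rfl⟩
    exact re_W e

/-! ### Closure properties -/

theorem re_union {A B : Set ℕ} (hA : RE A) (hB : RE B) : RE (A ∪ B) := by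
  obtain ⟨a, rfl⟩ := re_iff.1 hA
  obtain ⟨b, rfl⟩ := re_iff.1 hB
  refine (re_exists' (p := fun q => wb a q.1 q.2 = true ∨ wb b q.1 q.2 = true)
    ((pred_wb (Primrec.const a) Primrec.fst Primrec.snd).or
      (pred_wb (Primrec.const b) Primrec.fst Primrec.snd))).of_eq fun x => ?_
  simp only [W, Set.mem_union, Set.mem_ofPred_eq, exists_or]

theorem re_inter {A B : Set ℕ} (hA : RE A) (hB : RE B) : RE (A ∩ B) := by
  obtain ⟨a, rfl⟩ := re_iff.1 hA
  obtain ⟨b, rfl⟩ := re_iff.1 hB
  refine (re_exists' (p := fun q => wb a q.1 q.2 = true ∧ wb b q.1 q.2 = true)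
    ((pred_wb (Primrec.const a) Primrec.fst Primrec.snd).and
      (pred_wb (Primrec.const b) Primrec.fst Primrec.snd))).of_eq fun x => ?_
  simp only [W, Set.mem_inter_iff, Set.mem_ofPred_eq]
  constructor
  · rintro ⟨s, h1, h2⟩
    exact ⟨⟨s, h1⟩, ⟨s, h2⟩⟩
  · rintro ⟨⟨s, h1⟩, ⟨t, h2⟩⟩
    exact ⟨max s t, wb_mono (le_max_left _ _) h1, wb_mono (le_max_right _ _) h2⟩

theorem re_of_computable {p : ℕ → Prop} (h : ComputablePred p) : RE {x | p x} := h.to_re

theorem re_finite {A : Set ℕ} (h : A.Finite) : RE A := by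
  induction A, h using Set.Finite.induction_on with
  | empty =>
    refine re_of_computable (p := fun _ => False) ?_
    exact ((Primrec.const false).to_comp.computablePred (p := fun _ => False)).of_eq (by simp)
  | @insert a s _ _ ih =>
    rw [Set.insert_eq]
    refine re_union ?_ ih
    exact re_of_computable (p := fun x => x = a)
      (Primrec.eq.comp Primrec.id (Primrec.const a)).computablePred

theorem re_univ : RE (Set.univ : Set ℕ) := by
  refine (re_of_computable (p := fun x => x = x) ?_).of_eq (by simp)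
  exact (Primrec.eq.comp Primrec.id Primrec.id).computablePred

theorem re_cofinite {A : Set ℕ} (h : (Aᶜ).Finite) : RE A := by
  have key : ∀ B : Set ℕ, B.Finite → RE Bᶜ := by
    intro B hB
    induction B, hB using Set.Finite.induction_on with
    | empty =>
      rw [Set.compl_empty]
      exact re_univ
    | @insert a s _ _ ih =>
      rw [Set.insert_eq, Set.compl_union]
      refine re_inter ?_ ih
      exact re_of_computable (p := fun x => ¬ x = a)
        (Primrec.eq.comp Primrec.id (Primrec.const a)).computablePred.not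
  have := key _ h
  rwa [compl_compl] at this

/-- equality up to finite sets -/
def EqF (A B : Set ℕ) : Prop := (A \ B).Finite ∧ (B \ A).Finite

theorem re_of_eqF {A B : Set ℕ} (h : EqF A B) (hA : RE A) : RE B := by
  have : B = (A ∩ (A \ B)ᶜ) ∪ (B \ A) := by
    ext x
    simp only [Set.mem_union, Set.mem_inter_iff, Set.mem_compl_iff, Set.mem_sdiff]
    tauto
  rw [this]
  exact re_union (re_inter hA (re_cofinite (by rw [compl_compl]; exact h.1))) (re_finite h.2)

theorem Recu.compl {A : Set ℕ} (h : Recu A) : Recu Aᶜ := ⟨h.2, by rw [compl_compl]; exact h.1⟩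

theorem Recu.union {A B : Set ℕ} (hA : Recu A) (hB : Recu B) : Recu (A ∪ B) :=
  ⟨re_union hA.1 hB.1, by rw [Set.compl_union]; exact re_inter hA.2 hB.2⟩

theorem Recu.inter {A B : Set ℕ} (hA : Recu A) (hB : Recu B) : Recu (A ∩ B) :=
  ⟨re_inter hA.1 hB.1, by rw [Set.compl_inter]; exact re_union hA.2 hB.2⟩

theorem Recu.finite {A : Set ℕ} (h : A.Finite) : Recu A :=
  ⟨re_finite h, re_cofinite (by rw [compl_compl]; exact h)⟩

theorem Recu.of_eqF {A B : Set ℕ} (h : EqF A B) (hA : Recu A) : Recu B := by
  refine ⟨re_of_eqF h hA.1, re_of_eqF ?_ hA.2⟩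
  constructor
  · refine h.2.subset ?_
    intro x hx
    simp only [Set.mem_compl_iff, Set.mem_sdiff] at *
    tauto
  · refine h.1.subset ?_
    intro x hx
    simp only [Set.mem_compl_iff, Set.mem_sdiff] at *
    tauto

theorem Recu.computable {A : Set ℕ} (h : Recu A) : ComputablePred fun x => x ∈ A :=
  ComputablePred.computable_iff_re_compl_re'.2 ⟨h.1, h.2⟩

theorem recu_of_computable {p : ℕ → Prop} (h : ComputablePred p) : Recu {x | p x} :=
  ⟨h.to_re, h.not.to_re⟩

/-- the reduction principle -/
theorem reduction {A B : Set ℕ} (hA : RE A) (hB : RE B) :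
    ∃ A' B', RE A' ∧ RE B' ∧ A' ⊆ A ∧ B' ⊆ B ∧ A' ∪ B' = A ∪ B ∧ A' ∩ B' = ∅ := by
  obtain ⟨a, rfl⟩ := re_iff.1 hA
  obtain ⟨b, rfl⟩ := re_iff.1 hB
  refine ⟨{x | ∃ s, wb a x (s + 1) = true ∧ ¬ wb b x s = true},
    {x | ∃ s, wb b x s = true ∧ ¬ wb a x s = true}, ?_, ?_, ?_, ?_, ?_, ?_⟩
  · exact re_exists' (p := fun q => wb a q.1 (q.2 + 1) = true ∧ ¬ wb b q.1 q.2 = true)
      ((pred_wb (Primrec.const a) Primrec.fst (Primrec.succ.comp Primrec.snd)).and
        (pred_wb (Primrec.const b) Primrec.fst Primrec.snd).not)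
  · exact re_exists' (p := fun q => wb b q.1 q.2 = true ∧ ¬ wb a q.1 q.2 = true)
      ((pred_wb (Primrec.const b) Primrec.fst Primrec.snd).and
        (pred_wb (Primrec.const a) Primrec.fst Primrec.snd).not)
  · rintro x ⟨s, h, -⟩
    exact ⟨_, h⟩
  · rintro x ⟨s, h, -⟩
    exact ⟨_, h⟩
  · ext x
    simp only [Set.mem_union, Set.mem_ofPred_eq, W]
    constructor
    · rintro (⟨s, h, -⟩ | ⟨s, h, -⟩)
      · exact Or.inl ⟨_, h⟩
      · exact Or.inr ⟨_, h⟩
    · intro h
      by_contra hn
      push Not at hn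
      obtain ⟨h1, h2⟩ := hn
      -- membership in the two sets is simultaneous
      have h3 : ∀ s, wb b x s = true → wb a x s = true := fun s hs => h2 s hs
      have h4 : ∀ s, wb a x s = true := by
        have hex : ∃ s, wb a x s = true := by
          rcases h with h | ⟨s, hs⟩
          · exact h
          · exact ⟨s, h3 s hs⟩
        intro s
        exfalso
        classical
        have hm := Nat.find_spec hex
        have hmin := fun m => Nat.find_min (m := m) hex
        rcases hs : Nat.find hex with _ | m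
        · rw [hs, wb_zero] at hm
          exact absurd hm (by simp)
        · rw [hs] at hm
          have := h1 m hm
          exact hmin m (by omega) (h3 m this)
      have := h4 0
      rw [wb_zero] at this
      exact absurd this (by simp)
  · ext x
    simp only [Set.mem_inter_iff, Set.mem_ofPred_eq, Set.mem_empty_iff_false, iff_false]
    rintro ⟨⟨s, h1, h2⟩, ⟨t, h3, h4⟩⟩
    rcases le_or_gt t s with h | h
    · exact h2 (wb_mono h h3)
    · exact h4 (wb_mono (by omega) h1)

/-- an infinite r.e. set has an infinite recursive subset -/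
theorem exists_recu_subset {V : Set ℕ} (hV : RE V) (hinf : V.Infinite) :
    ∃ R ⊆ V, Recu R ∧ R.Infinite := by
  classical
  obtain ⟨e, rfl⟩ := re_iff.1 hV
  have hex : ∀ n, ∃ m : ℕ, wb e m.unpair.1 m.unpair.2 = true ∧ n ≤ m.unpair.1 := by
    intro n
    obtain ⟨x, ⟨s, hs⟩, hx⟩ := hinf.exists_gt n
    exact ⟨Nat.pair x s, by simpa using hs, by simpa using hx.le⟩
  have hP : ComputablePred fun p : ℕ × ℕ =>
      wb e p.2.unpair.1 p.2.unpair.2 = true ∧ p.1 ≤ p.2.unpair.1 := by
    apply PrimrecPred.computablePred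
    exact (pred_wb (Primrec.const e) (Primrec.fst.comp (Primrec.unpair.comp Primrec.snd))
      (Primrec.snd.comp (Primrec.unpair.comp Primrec.snd))).and
      (Primrec.nat_le.comp Primrec.fst (Primrec.fst.comp (Primrec.unpair.comp Primrec.snd)))
  let g : ℕ → ℕ := fun n => (Nat.find (hex n)).unpair.1
  have hg : Computable g :=
    Computable.fst.comp (Primrec.unpair.to_comp.comp (Computable.find hP hex))
  have hg1 : ∀ n, g n ∈ W e := fun n => ⟨_, (Nat.find_spec (hex n)).1⟩
  have hg2 : ∀ n, n ≤ g n := fun n => (Nat.find_spec (hex n)).2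
  refine ⟨Set.range g, ?_, ?_, ?_⟩
  · rintro _ ⟨n, rfl⟩
    exact hg1 n
  · have h1 : ComputablePred fun x : ℕ => ∃ n < x + 1, g n = x := by
      refine comp_exists_lt (P := fun q : ℕ × ℕ => g q.2 = q.1) (Primrec.succ.to_comp) ?_
      have : Computable fun q : ℕ × ℕ => decide (g q.2 = q.1) :=
        (Primrec.eq (α := ℕ)).decide.to_comp.comp (hg.comp Computable.snd) Computable.fst
      exact this.computablePred
    have h2 : Set.range g = {x | ∃ n < x + 1, g n = x} := by
      ext x
      constructor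
      · rintro ⟨n, rfl⟩
        exact ⟨n, Nat.lt_succ_of_le (hg2 n), rfl⟩
      · rintro ⟨n, -, h⟩
        exact ⟨n, h⟩
    rw [h2]
    exact recu_of_computable h1
  · refine Set.infinite_of_not_bddAbove ?_
    rintro ⟨b, hb⟩
    have := hb ⟨b + 1, rfl⟩
    have := hg2 (b + 1)
    omega

end Pool.Agent.H53.DS
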