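import Pool.Agent.H53.DS.Basic

/-! A major subset which contains no non-recursive split part. -/

namespace Pool.Agent.H53.DS

/-- at stage `s`, the `c`-th partial recursive function looks like the characteristic function of
a recursive subset of `W f` containing `x` -/
def Claim (f c x s : ℕ) : Prop :=
  ph c x s = some 1 ∧ ∀ y < x + 1, (ph c y s).isSome = true ∧ (ph c y s = some 1 → wb f y s = true)

instance (f c x s : ℕ) : Decidable (Claim f c x s) := by unfold Claim; infer_instance

/-- the condition for `x` to be held by `p` at stage `s`, if the last extension was at `τ` -/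
def Held (f p τ x s : ℕ) : Prop :=
  wb f x s = true ∧ ¬ wb f x τ = true ∧ ¬ wb p x s = true ∧ ∀ j < p, ¬ Claim f j x s

instance (f p τ x s : ℕ) : Decidable (Held f p τ x s) := by unfold Held; infer_instance

/-- the last extension stage -/
def tt (f p : ℕ) : ℕ → ℕ
  | 0 => 0
  | s + 1 => if ∃ x < tt f p s, Held f p (tt f p s) x s then tt f p s else s

/-- `p` holds `x` at stage `s` -/
def Hold (f p x s : ℕ) : Prop := x < tt f p s ∧ Held f p (tt f p s) x s

/-- the major subset -/
def Bs (f : ℕ) : Set ℕ :=
  {x | ∃ m : ℕ, Claim f m.unpair.1 x m.unpair.2 ∧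
    ∀ p < m.unpair.1 + 1, ¬ Hold f p x m.unpair.2}

section computability

variable {α : Type*} [Primcodable α]

theorem pred_Claim (f : ℕ) {c x s : α → ℕ} (hc : Primrec c) (hx : Primrec x) (hs : Primrec s) :
    PrimrecPred fun a => Claim f (c a) (x a) (s a) := by
  refine PrimrecPred.and (pred_ph hc hx hs (Primrec.const 1)) ?_
  refine pred_forall_lt (P := fun q : α × ℕ => (ph (c q.1) q.2 (s q.1)).isSome = true ∧
    (ph (c q.1) q.2 (s q.1) = some 1 → wb f q.2 (s q.1) = true)) (Primrec.succ.comp hx) ?_
  refine PrimrecPred.and ?_ ?_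
  · exact pred_wb (hc.comp Primrec.fst) Primrec.snd (hs.comp Primrec.fst)
  · have h1 : PrimrecPred fun q : α × ℕ => ph (c q.1) q.2 (s q.1) = some 1 :=
      pred_ph (hc.comp Primrec.fst) Primrec.snd (hs.comp Primrec.fst) (Primrec.const 1)
    have h2 : PrimrecPred fun q : α × ℕ => wb f q.2 (s q.1) = true :=
      pred_wb (Primrec.const f) Primrec.snd (hs.comp Primrec.fst)
    exact (h1.not.or h2).of_eq fun q => by rw [imp_iff_not_or]

theorem pred_Held (f : ℕ) {p τ x s : α → ℕ} (hp : Primrec p) (hτ : Primrec τ) (hx : Primrec x)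
    (hs : Primrec s) : PrimrecPred fun a => Held f (p a) (τ a) (x a) (s a) := by
  refine PrimrecPred.and (pred_wb (Primrec.const f) hx hs) (PrimrecPred.and
    (pred_wb (Primrec.const f) hx hτ).not (PrimrecPred.and (pred_wb hp hx hs).not ?_))
  exact pred_forall_lt (P := fun q : α × ℕ => ¬ Claim f q.2 (x q.1) (s q.1)) hp
    (pred_Claim f Primrec.snd (hx.comp Primrec.fst) (hs.comp Primrec.fst)).not

theorem primrec_tt (f : ℕ) : Primrec₂ (tt f) := by
  have h : Primrec fun p : ℕ × ℕ => (Nat.rec (motive := fun _ => ℕ) 0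
      (fun s τ => if ∃ x < τ, Held f p.1 τ x s then τ else s) p.2) := by
    refine Primrec.nat_rec' (f := fun p : ℕ × ℕ => p.2) (g := fun _ : ℕ × ℕ => 0)
      (h := fun (p : ℕ × ℕ) (q : ℕ × ℕ) => if ∃ x < q.2, Held f p.1 q.2 x q.1 then q.2 else q.1)
      Primrec.snd (Primrec.const 0) ?_
    refine Primrec.ite ?_ (Primrec.snd.comp Primrec.snd) (Primrec.fst.comp Primrec.snd)
    exact pred_exists_lt (P := fun r : ((ℕ × ℕ) × ℕ × ℕ) × ℕ =>
      Held f r.1.1.1 r.1.2.2 r.2 r.1.2.1) (Primrec.snd.comp Primrec.snd)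
      (pred_Held f (Primrec.fst.comp (Primrec.fst.comp Primrec.fst))
        (Primrec.snd.comp (Primrec.snd.comp Primrec.fst)) Primrec.snd
        (Primrec.fst.comp (Primrec.snd.comp Primrec.fst)))
  refine h.of_eq fun p => ?_
  obtain ⟨p, s⟩ := p
  induction s with
  | zero => rfl
  | succ s ih =>
    simp only [tt]
    simp only at ih
    rw [← ih]

theorem pred_Hold (f : ℕ) {p x s : α → ℕ} (hp : Primrec p) (hx : Primrec x)
    (hs : Primrec s) : PrimrecPred fun a => Hold f (p a) (x a) (s a) :=
  PrimrecPred.and (Primrec.nat_lt.comp hx ((primrec_tt f).comp hp hs))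
    (pred_Held f hp ((primrec_tt f).comp hp hs) hx hs)

theorem re_Bs (f : ℕ) : RE (Bs f) := by
  have h : PrimrecPred fun q : ℕ × ℕ => Claim f q.2.unpair.1 q.1 q.2.unpair.2 ∧
      ∀ p < q.2.unpair.1 + 1, ¬ Hold f p q.1 q.2.unpair.2 := by
    have h1 : Primrec fun q : ℕ × ℕ => q.2.unpair.1 :=
      Primrec.fst.comp (Primrec.unpair.comp Primrec.snd)
    have h2 : Primrec fun q : ℕ × ℕ => q.2.unpair.2 :=
      Primrec.snd.comp (Primrec.unpair.comp Primrec.snd)
    refine PrimrecPred.and (pred_Claim f h1 Primrec.fst h2) ?_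
    exact pred_forall_lt (P := fun r : (ℕ × ℕ) × ℕ => ¬ Hold f r.2 r.1.1 r.1.2.unpair.2)
      (Primrec.succ.comp h1)
      (pred_Hold f Primrec.snd (Primrec.fst.comp Primrec.fst) (h2.comp Primrec.fst)).not
  exact re_exists' h

end computability

theorem Claim.mem {f c x s : ℕ} (h : Claim f c x s) : wb f x s = true :=
  (h.2 x (by omega)).2 h.1

theorem Claim.mono {f c x s t : ℕ} (hst : s ≤ t) (h : Claim f c x s) : Claim f c x t := by
  refine ⟨ph_mono hst h.1, fun y hy => ?_⟩
  obtain ⟨h1, h2⟩ := h.2 y hy
  obtain ⟨v, hv⟩ := Option.isSome_iff_exists.1 h1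
  have hv' := ph_mono hst hv
  refine ⟨by rw [hv']; rfl, fun h3 => ?_⟩
  rw [hv'] at h3
  exact wb_mono hst (h2 (by rw [hv, h3]))

theorem tt_le (f p s : ℕ) : tt f p s ≤ s := by
  induction s with
  | zero => simp [tt]
  | succ s ih =>
    simp only [tt]
    split_ifs <;> omega

theorem tt_mono_succ (f p s : ℕ) : tt f p s ≤ tt f p (s + 1) := by
  have := tt_le f p s
  simp only [tt]
  split_ifs <;> omega

theorem tt_mono (f p : ℕ) {s t : ℕ} (h : s ≤ t) : tt f p s ≤ tt f p t := by
  induction t, h using Nat.le_induction with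
  | base => exact le_rfl
  | succ t _ ih => exact ih.trans (tt_mono_succ f p t)

theorem hold_succ {f p x s : ℕ} (hx : wb f x s = true) (h : Hold f p x (s + 1)) :
    Hold f p x s := by
  obtain ⟨h1, h2, h3, h4, h5⟩ := h
  by_cases hex : ∃ y < tt f p s, Held f p (tt f p s) y s
  · have ht : tt f p (s + 1) = tt f p s := by
      simp only [tt, if_pos hex]
    rw [ht] at h1 h3
    refine ⟨h1, hx, h3, fun h => h4 (wb_mono (by omega) h), fun j hj h => ?_⟩
    exact h5 j hj (h.mono (by omega))
  · have ht : tt f p (s + 1) = s := by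
      simp only [tt, if_neg hex]
    rw [ht] at h3
    exact absurd hx h3

theorem hold_anti {f p x s t : ℕ} (hst : s ≤ t) (hx : wb f x s = true) (h : Hold f p x t) :
    Hold f p x s := by
  induction t, hst using Nat.le_induction with
  | base => exact h
  | succ t hst ih => exact ih (hold_succ (wb_mono hst hx) h)

/-- permanently held elements -/
def PH (f p : ℕ) : Set ℕ := {x | ∃ s0, ∀ s ≥ s0, Hold f p x s}

theorem PH_finite (f p : ℕ) : (PH f p).Finite := by
  by_cases hne : (PH f p).Nonempty
  · obtain ⟨x0, s0, hs0⟩ := hne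
    have hconst : ∀ s ≥ s0, tt f p s = tt f p s0 := by
      intro s hs
      induction s, hs using Nat.le_induction with
      | base => rfl
      | succ s hs ih =>
        have hex : ∃ y < tt f p s, Held f p (tt f p s) y s := ⟨x0, (hs0 s hs).1, (hs0 s hs).2⟩
        rw [← ih]
        simp only [tt, if_pos hex]
    refine (Set.finite_Iio (tt f p s0)).subset ?_
    rintro x ⟨s1, hs1⟩
    have h1 := (hs1 (max s0 s1) (le_max_right _ _)).1
    rw [hconst _ (le_max_left _ _)] at h1
    exact h1
  · rw [Set.not_nonempty_iff_eq_empty] at hne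
    rw [hne]
    exact Set.finite_empty

theorem not_hold_of_not_mem_PH {f p x : ℕ} (h : x ∉ PH f p) : ∃ r, ∀ s ≥ r, ¬ Hold f p x s := by
  by_cases hx : x ∈ W f
  · obtain ⟨s1, hs1⟩ := hx
    have h1 : ∃ s ≥ s1, ¬ Hold f p x s := by
      by_contra hcon
      push Not at hcon
      exact h ⟨s1, hcon⟩
    obtain ⟨r, hr, hnr⟩ := h1
    exact ⟨r, fun s hs hh => hnr (hold_anti hs (wb_mono hr hs1) hh)⟩
  · exact ⟨0, fun s _ hh => hx ⟨s, hh.2.1⟩⟩

/-- `Bs f` is a subset of `W f` -/
theorem Bs_subset (f : ℕ) : Bs f ⊆ W f := by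
  rintro x ⟨m, h, -⟩
  exact ⟨_, h.mem⟩

/-- `Bs f` contains almost all elements of every recursive subset of `W f` -/
theorem Bs_major {f : ℕ} {R : Set ℕ} (hR : Recu R) (hsub : R ⊆ W f) : (R \ Bs f).Finite := by
  classical
  -- an index of the characteristic function
  have h1 : Computable fun x : ℕ => if x ∈ R then (1 : ℕ) else 0 := by
    have h2 := hR.computable
    exact ComputablePred.ite (Computable.const 1) (Computable.const 0) h2
  have h3 : Nat.Partrec ((fun x : ℕ => if x ∈ R then (1 : ℕ) else 0 : ℕ → ℕ) : ℕ →. ℕ) :=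
    Partrec.nat_iff.1 h1
  obtain ⟨code, hcode⟩ := Nat.Partrec.Code.exists_code.1 h3
  let c := Encodable.encode code
  have hc : ∀ x v, (∃ s, ph c x s = some v) ↔ v = if x ∈ R then 1 else 0 := by
    intro x v
    have h4 : (∃ s, ph c x s = some v) ↔ v ∈ Nat.Partrec.Code.eval code x := by
      rw [Nat.Partrec.Code.evaln_complete]
      simp only [ph, c, Denumerable.ofNat_encode, Option.mem_def]
    rw [h4, hcode]
    simp
  -- claims
  have hclaim : ∀ x ∈ R, ∃ s, Claim f c x s := by
    intro x hx
    have h5 : ∀ y, ∃ s, (ph c y s).isSome = true ∧ (ph c y s = some 1 → wb f y s = true) := by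
      intro y
      obtain ⟨s, hs⟩ := (hc y _).2 rfl
      by_cases hy : y ∈ R
      · obtain ⟨t, ht⟩ := hsub hy
        refine ⟨max s t, ?_, fun _ => wb_mono (le_max_right _ _) ht⟩
        rw [ph_mono (le_max_left _ _) hs]
        rfl
      · refine ⟨s, by rw [hs]; rfl, fun h => ?_⟩
        rw [if_neg hy] at hs
        rw [hs] at h
        simp at h
    choose g hg using h5
    have hx1 := (hg x).1
    obtain ⟨v, hv⟩ := Option.isSome_iff_exists.1 hx1
    have hv1 : v = 1 := by
      have := (hc x v).1 ⟨_, hv⟩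
      rwa [if_pos hx] at this
    subst hv1
    refine ⟨(Finset.range (x + 1)).sup g, ?_, ?_⟩
    · exact ph_mono (Finset.le_sup (f := g) (Finset.mem_range.2 (by omega))) hv
    · intro y hy
      have hle : g y ≤ (Finset.range (x + 1)).sup g :=
        Finset.le_sup (f := g) (Finset.mem_range.2 hy)
      obtain ⟨w, hw⟩ := Option.isSome_iff_exists.1 (hg y).1
      have hw' := ph_mono hle hw
      refine ⟨by rw [hw']; rfl, fun h => ?_⟩
      rw [hw'] at h
      exact wb_mono hle ((hg y).2 (by rw [hw, h]))
  have hfin : (⋃ p ∈ Finset.range (c + 1), PH f p).Finite :=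
    Set.Finite.biUnion (Finset.finite_toSet _) fun p _ => PH_finite f p
  refine hfin.subset ?_
  rintro x ⟨hxR, hxB⟩
  obtain ⟨s1, hs1⟩ := hclaim x hxR
  by_contra hcon
  simp only [Set.mem_iUnion, Finset.mem_range, exists_prop, not_exists, not_and] at hcon
  have h6 : ∀ p, ∃ r, p < c + 1 → ∀ s ≥ r, ¬ Hold f p x s := by
    intro p
    by_cases hp : p < c + 1
    · obtain ⟨r, hr⟩ := not_hold_of_not_mem_PH (hcon p hp)
      exact ⟨r, fun _ => hr⟩
    · exact ⟨0, fun h => absurd h hp⟩
  choose r hr using h6
  apply hxB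
  let s := max s1 ((Finset.range (c + 1)).sup r)
  refine ⟨Nat.pair c s, ?_, ?_⟩
  · rw [Nat.unpair_pair]
    exact hs1.mono (le_max_left _ _)
  · rw [Nat.unpair_pair]
    intro p hp
    apply hr p hp
    exact le_trans (Finset.le_sup (f := r) (Finset.mem_range.2 hp)) (le_max_right _ _)

/-- the recursive set listed by `j` -/
def Rj (f j : ℕ) : Set ℕ := {x | ∃ s, Claim f j x s}

theorem Rj_subset (f j : ℕ) : Rj f j ⊆ W f := by
  rintro x ⟨s, h⟩
  exact ⟨s, h.mem⟩

theorem recu_Rj (f j : ℕ) : Recu (Rj f j) := by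
  by_cases hfin : (Rj f j).Finite
  · exact Recu.finite hfin
  · have hinf : (Rj f j).Infinite := hfin
    have hre : RE (Rj f j) :=
      re_exists' (p := fun q : ℕ × ℕ => Claim f j q.1 q.2)
        (pred_Claim f (Primrec.const j) Primrec.fst Primrec.snd)
    refine ⟨hre, ?_⟩
    have h1 : RE {x | ∃ s, wb j x s = true ∧ ¬ ph j x s = some 1} :=
      re_exists' (p := fun q : ℕ × ℕ => wb j q.1 q.2 = true ∧ ¬ ph j q.1 q.2 = some 1)
        ((pred_wb (Primrec.const j) Primrec.fst Primrec.snd).and
          (pred_ph (Primrec.const j) Primrec.fst Primrec.snd (Primrec.const 1)).not)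
    refine h1.of_eq fun x => ?_
    simp only [Set.mem_ofPred_eq, Set.mem_compl_iff]
    constructor
    · rintro ⟨s, h2, h3⟩ ⟨t, h4⟩
      obtain ⟨v, hv⟩ := Option.isSome_iff_exists.1 h2
      have h5 := ph_mono (le_max_left s t) hv
      have h6 := ph_mono (le_max_right s t) h4.1
      rw [h5] at h6
      rw [hv] at h3
      exact h3 h6
    · intro hx
      obtain ⟨x', ⟨s', hs'⟩, hxx'⟩ := hinf.exists_gt x
      refine ⟨s', (hs'.2 x (by omega)).1, fun h2 => hx ⟨s', h2, fun y hy => ?_⟩⟩
      exact hs'.2 y (by omega)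

/-- recursive parts of a split part are recursive -/
theorem recu_inter {F G H R : Set ℕ} (hG : RE G) (hH : RE H) (hFGH : F \ G = H) (hR : Recu R)
    (hRF : R ⊆ F) : Recu (G ∩ R) := by
  refine ⟨re_inter hG hR.1, ?_⟩
  have : (G ∩ R)ᶜ = Rᶜ ∪ H := by
    ext x
    rw [← hFGH]
    simp only [Set.mem_compl_iff, Set.mem_inter_iff, Set.mem_union, Set.mem_sdiff]
    constructor
    · intro h
      by_cases hx : x ∈ R
      · exact Or.inr ⟨hRF hx, fun h' => h ⟨h', hx⟩⟩
      · exact Or.inl hx
    · rintro (h | ⟨-, h⟩) h'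
      · exact h h'.2
      · exact h h'.1
  rw [this]
  exact re_union hR.2 hH

/-- a split part of `W f` contained in `Bs f` is recursive -/
theorem Bs_small {f : ℕ} {G : Set ℕ} (hG : RE G) (hsub : G ⊆ Bs f) (hH : RE (W f \ G)) :
    Recu G := by
  classical
  obtain ⟨p, hp⟩ := re_iff.1 hH
  -- nothing is held permanently
  have hPH : ∀ x, x ∉ PH f p := by
    rintro x ⟨s0, hs0⟩
    have hh := hs0 s0 le_rfl
    have hxF : x ∈ W f := ⟨_, hh.2.1⟩
    have hxp : x ∉ W p := by
      rintro ⟨t, ht⟩
      exact (hs0 (max s0 t) (le_max_left _ _)).2.2.2.1 (wb_mono (le_max_right _ _) ht)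
    have hxG : x ∈ G := by
      by_contra h
      apply hxp
      rw [← hp]
      exact ⟨hxF, h⟩
    obtain ⟨m, hm1, hm2⟩ := hsub hxG
    have hhm : Hold f p x m.unpair.2 := by
      apply hold_anti (le_max_right s0 m.unpair.2) hm1.mem
      exact hs0 _ (le_max_left _ _)
    rcases Nat.lt_or_ge m.unpair.1 p with h | h
    · exact hhm.2.2.2.2 _ h hm1
    · exact hm2 p (by omega) hhm
  -- the extension stages tend to infinity
  have htinf : ∀ n, ∃ s, n < tt f p s := by
    by_contra hcon
    push Not at hcon
    obtain ⟨n, hn⟩ := hcon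
    -- the maximal value
    have hex : ∃ s0, ∀ s, tt f p s ≤ tt f p s0 := by
      by_contra hc
      push Not at hc
      have : ∀ k, ∃ s, k ≤ tt f p s := by
        intro k
        induction k with
        | zero => exact ⟨0, Nat.zero_le _⟩
        | succ k ih =>
          obtain ⟨s, hs⟩ := ih
          obtain ⟨s', hs'⟩ := hc s
          exact ⟨s', by omega⟩
      obtain ⟨s, hs⟩ := this (n + 1)
      have := hn s
      omega
    obtain ⟨s0, hs0⟩ := hex
    have hconst : ∀ s ≥ s0, tt f p s = tt f p s0 := fun s hs =>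
      le_antisymm (hs0 s) (tt_mono f p hs)
    choose r hr using fun x => not_hold_of_not_mem_PH (hPH x)
    let s := max (max s0 (tt f p s0 + 1)) ((Finset.range (tt f p s0)).sup r)
    have h1 : s0 ≤ s := le_trans (le_max_left _ _) (le_max_left _ _)
    have h2 : tt f p s0 + 1 ≤ s := le_trans (le_max_right _ _) (le_max_left _ _)
    have h3 : tt f p (s + 1) = tt f p s := by rw [hconst _ h1, hconst _ (by omega)]
    have h4 : ∃ x < tt f p s, Held f p (tt f p s) x s := by
      by_contra hne
      simp only [tt, if_neg hne] at h3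
      have := hconst s h1
      omega
    obtain ⟨x, hx, hheld⟩ := h4
    refine hr x s ?_ ⟨hx, hheld⟩
    rw [hconst s h1] at hx
    exact le_trans (Finset.le_sup (f := r) (Finset.mem_range.2 hx)) (le_max_right _ _)
  -- the recursive set of elements enumerated before being reserved
  let u : ℕ → ℕ := fun x => Nat.find (htinf x)
  have hu : Computable u := by
    refine Computable.find (P := fun x s => x < tt f p s) ?_ htinf
    apply PrimrecPred.computablePred
    exact Primrec.nat_lt.comp Primrec.fst
      ((primrec_tt f).comp (Primrec.const p) Primrec.snd)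
  let Rs : Set ℕ := {x | wb f x (u x) = true}
  have hRs : Recu Rs := by
    apply recu_of_computable
    have h1 : Computable fun x => wb f x (u x) :=
      primrec_wb.to_comp.comp ((Computable.const f).pair (Computable.id.pair hu))
    have h2 : Computable fun x => decide (wb f x (u x) = true) := by
      simpa using h1
    exact h2.computablePred
  have hRsF : Rs ⊆ W f := fun x hx => ⟨_, hx⟩
  have hcover : G = (G ∩ Rs) ∪ ⋃ j ∈ Finset.range p, (G ∩ Rj f j) := by
    apply Set.Subset.antisymm
    · intro x hx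
      by_contra hcon
      simp only [Set.mem_union, Set.mem_inter_iff, Set.mem_iUnion, Finset.mem_range, exists_prop,
        not_or, not_and, not_exists] at hcon
      obtain ⟨hc1, hc2⟩ := hcon
      have hxRs := hc1 hx
      have hxRj : ∀ j < p, ∀ s, ¬ Claim f j x s := fun j hj s h => hc2 j hj hx ⟨s, h⟩
      have hxF : ∃ s, wb f x s = true := Bs_subset f (hsub hx)
      have hxp : ∀ s, ¬ wb p x s = true := by
        intro s hs
        have h1 : x ∈ W p := ⟨s, hs⟩
        rw [← hp] at h1
        exact h1.2 hx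
      -- the stage at which `x` enters
      have hspec := Nat.find_spec hxF
      have hmin := fun m => Nat.find_min (m := m) hxF
      rcases hs : Nat.find hxF with _ | s
      · rw [hs, wb_zero] at hspec
        exact absurd hspec (by simp)
      · rw [hs] at hspec
        have hns : ¬ wb f x s = true := hmin s (by omega)
        have hus : u x ≤ s := by
          by_contra hlt
          exact hxRs (wb_mono (show s + 1 ≤ u x by omega) hspec)
        have hxt : x < tt f p (s + 1) :=
          lt_of_lt_of_le (Nat.find_spec (htinf x)) (tt_mono f p (show u x ≤ s + 1 by omega))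
        have hts : tt f p (s + 1) ≤ s := by
          have := tt_le f p s
          simp only [tt]
          split_ifs <;> omega
        have hnt : ¬ wb f x (tt f p (s + 1)) = true := fun h => hns (wb_mono hts h)
        have hhold : ∀ r ≥ s + 1, Hold f p x r ∧ tt f p r = tt f p (s + 1) := by
          intro r hr
          induction r, hr using Nat.le_induction with
          | base => exact ⟨⟨hxt, hspec, hnt, hxp _, fun j hj => hxRj j hj _⟩, rfl⟩
          | succ r hr ih =>
            have h1 : tt f p (r + 1) = tt f p r := by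
              have hex : ∃ y < tt f p r, Held f p (tt f p r) y r := ⟨x, ih.1.1, ih.1.2⟩
              simp only [tt, if_pos hex]
            have h2 : tt f p (r + 1) = tt f p (s + 1) := by rw [h1, ih.2]
            refine ⟨⟨?_, wb_mono (by omega) hspec, ?_, hxp _, fun j hj => hxRj j hj _⟩, h2⟩
            · rw [h2]
              exact hxt
            · rw [h2]
              exact hnt
        exact hPH x ⟨s + 1, fun r hr => (hhold r hr).1⟩
    · rintro x (hx | hx)
      · exact hx.1
      · simp only [Set.mem_iUnion] at hx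
        obtain ⟨j, -, hx⟩ := hx
        exact hx.1
  rw [hcover]
  refine Recu.union (recu_inter hG hH rfl hRs hRsF) ?_
  have hfinun : ∀ s : Finset ℕ, Recu (⋃ j ∈ s, (G ∩ Rj f j)) := by
    intro s
    induction s using Finset.induction_on with
    | empty =>
      simp only [Finset.notMem_empty, Set.iUnion_of_empty, Set.iUnion_empty]
      exact Recu.finite Set.finite_empty
    | insert a s _ ih =>
      rw [Finset.set_biUnion_insert]
      exact Recu.union (recu_inter hG hH rfl (recu_Rj f a) (Rj_subset f a)) ih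
  exact hfinun _

end Pool.Agent.H53.DS
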