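import Pool.Agent.H53.DS.Basic

/-! Friedberg splittings exist. -/

namespace Pool.Agent.H53.DS

/-- an element enters the `b`-th r.e. set at stage `s` -/
def Ent (b s : ℕ) : Prop :=
  wb b s.unpair.1 (s.unpair.2 + 1) = true ∧ ¬ wb b s.unpair.1 s.unpair.2 = true

instance (b s : ℕ) : Decidable (Ent b s) := by unfold Ent; infer_instance

/-- the candidates: unsatisfied requirements which can be met by the element entering -/
def cand (s : ℕ) (S : List ℕ) : List ℕ :=
  (List.range s).filter (fun n => ¬ n ∈ S ∧ wb (n / 2) s.unpair.1 s = true)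

/-- the requirement chosen at stage `s` -/
def ch (b s : ℕ) (S : List ℕ) : Option ℕ := if Ent b s then (cand s S).head? else none

/-- the requirements satisfied before stage `s` -/
def SS (b : ℕ) : ℕ → List ℕ
  | 0 => []
  | s + 1 => (ch b s (SS b s)).toList ++ SS b s

/-- the half of the splitting into which the element entering at stage `s` goes -/
def cc (b s : ℕ) : ℕ := ((ch b s (SS b s)).getD 0) % 2

/-- the halves of the splitting -/
def half (b i : ℕ) : Set ℕ := {x | ∃ s, Ent b s ∧ s.unpair.1 = x ∧ cc b s = i}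

theorem pred_Ent (b : ℕ) : PrimrecPred fun s => Ent b s := by
  refine PrimrecPred.and ?_ (PrimrecPred.not ?_)
  · exact pred_wb (Primrec.const b) (Primrec.fst.comp Primrec.unpair)
      (Primrec.succ.comp (Primrec.snd.comp Primrec.unpair))
  · exact pred_wb (Primrec.const b) (Primrec.fst.comp Primrec.unpair)
      (Primrec.snd.comp Primrec.unpair)

theorem primrec_cand : Primrec₂ cand := by
  have h1 : PrimrecRel fun (n : ℕ) (p : ℕ × List ℕ) =>
      ¬ n ∈ p.2 ∧ wb (n / 2) p.1.unpair.1 p.1 = true := by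
    refine PrimrecPred.and (PrimrecPred.not ?_) ?_
    · have h2 : PrimrecRel fun (L : List ℕ) (x : ℕ) => ∃ y ∈ L, y = x :=
        (Primrec.eq (α := ℕ)).exists_mem_list
      exact (h2.comp (Primrec.snd.comp Primrec.snd) Primrec.fst).of_eq (by simp)
    · exact pred_wb (Primrec.nat_div.comp Primrec.fst (Primrec.const 2))
        (Primrec.fst.comp (Primrec.unpair.comp (Primrec.fst.comp Primrec.snd)))
        (Primrec.fst.comp Primrec.snd)
  have h2 : Primrec₂ fun (L : List ℕ) (p : ℕ × List ℕ) =>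
      L.filter (fun n => ¬ n ∈ p.2 ∧ wb (n / 2) p.1.unpair.1 p.1 = true) := h1.listFilter
  exact h2.comp (Primrec.list_range.comp Primrec.fst) Primrec.id

theorem primrec_ch (b : ℕ) : Primrec₂ (ch b) := by
  refine Primrec.ite ((pred_Ent b).comp Primrec.fst) ?_ (Primrec.const none)
  exact Primrec.list_head?.comp primrec_cand

theorem primrec_SS (b : ℕ) : Primrec (SS b) := by
  have hstep : Primrec₂ fun (s : ℕ) (S : List ℕ) => (ch b s S).toList ++ S :=
    Primrec.list_append.comp (Primrec.optionToList.comp (primrec_ch b)) Primrec.snd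
  refine (Primrec.nat_rec₁ (f := fun (s : ℕ) (S : List ℕ) => (ch b s S).toList ++ S) []
    hstep).of_eq fun s => ?_
  induction s with
  | zero => rfl
  | succ s ih =>
    simp only [SS]
    rw [← ih]

theorem primrec_cc (b : ℕ) : Primrec (cc b) := by
  refine Primrec.nat_mod.comp ?_ (Primrec.const 2)
  exact Primrec.option_getD.comp ((primrec_ch b).comp Primrec.id (primrec_SS b)) (Primrec.const 0)

theorem re_half (b i : ℕ) : RE (half b i) := by
  have h : PrimrecPred fun q : ℕ × ℕ => Ent b q.2 ∧ q.2.unpair.1 = q.1 ∧ cc b q.2 = i := by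
    refine PrimrecPred.and ((pred_Ent b).comp Primrec.snd) (PrimrecPred.and ?_ ?_)
    · exact Primrec.eq.comp (Primrec.fst.comp (Primrec.unpair.comp Primrec.snd)) Primrec.fst
    · exact Primrec.eq.comp ((primrec_cc b).comp Primrec.snd) (Primrec.const i)
  exact re_exists' h

theorem ent_mem {b s : ℕ} (h : Ent b s) : s.unpair.1 ∈ W b := ⟨_, h.1⟩

theorem ent_unique {b s t : ℕ} (hs : Ent b s) (ht : Ent b t) (h : s.unpair.1 = t.unpair.1) :
    s = t := by
  have h1 : s.unpair.2 = t.unpair.2 := by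
    rcases lt_trichotomy s.unpair.2 t.unpair.2 with h1 | h1 | h1
    · exfalso
      apply ht.2
      rw [← h]
      exact wb_mono (by omega) hs.1
    · exact h1
    · exfalso
      apply hs.2
      rw [h]
      exact wb_mono (by omega) ht.1
  rw [← Nat.pair_unpair s, ← Nat.pair_unpair t, h, h1]

theorem exists_ent {b x : ℕ} (hx : x ∈ W b) : ∃ s, Ent b s ∧ s.unpair.1 = x := by
  have hx' : ∃ s, wb b x s = true := hx
  have hspec := Nat.find_spec hx'
  have hmin := fun m => Nat.find_min (m := m) hx'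
  rcases hs : Nat.find hx' with _ | m
  · rw [hs, wb_zero] at hspec
    exact absurd hspec (by simp)
  · rw [hs] at hspec
    refine ⟨Nat.pair x m, ⟨?_, ?_⟩, by simp⟩
    · simpa using hspec
    · simpa using hmin m (by omega)

theorem half_union (b : ℕ) : half b 0 ∪ half b 1 = W b := by
  ext x
  constructor
  · rintro (⟨s, h, rfl, -⟩ | ⟨s, h, rfl, -⟩)
    · exact ent_mem h
    · exact ent_mem h
  · intro hx
    obtain ⟨s, hs, hsx⟩ := exists_ent hx
    have h2 : cc b s = 0 ∨ cc b s = 1 := by
      unfold cc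
      omega
    rcases h2 with h2 | h2
    · exact Or.inl ⟨s, hs, hsx, h2⟩
    · exact Or.inr ⟨s, hs, hsx, h2⟩

theorem half_disj {b i j : ℕ} (hij : i ≠ j) : half b i ∩ half b j = ∅ := by
  ext x
  simp only [Set.mem_inter_iff, Set.mem_empty_iff_false, iff_false]
  rintro ⟨⟨s, hs, hsx, hsi⟩, ⟨t, ht, htx, htj⟩⟩
  have := ent_unique hs ht (by rw [hsx, htx])
  subst this
  omega

theorem SS_mono {b s t : ℕ} (h : s ≤ t) {n : ℕ} (hn : n ∈ SS b s) : n ∈ SS b t := by
  induction t, h using Nat.le_induction with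
  | base => exact hn
  | succ t _ ih =>
    simp only [SS, List.mem_append]
    exact Or.inr ih

theorem ch_spec {b s n : ℕ} {S : List ℕ} (h : ch b s S = some n) :
    Ent b s ∧ n ∉ S ∧ wb (n / 2) s.unpair.1 s = true := by
  unfold ch at h
  split_ifs at h with hE
  have hmem := List.mem_of_head? h
  simp only [cand, List.mem_filter, List.mem_range, decide_eq_true_eq] at hmem
  exact ⟨hE, hmem.2.1, hmem.2.2⟩

theorem SS_spec {b s n : ℕ} (h : n ∈ SS b s) : ∃ x ∈ half b (n % 2), x ∈ W (n / 2) := by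
  induction s with
  | zero => simp [SS] at h
  | succ s ih =>
    simp only [SS, List.mem_append] at h
    rcases h with h | h
    · rw [Option.mem_toList] at h
      obtain ⟨h1, h2, h3⟩ := ch_spec h
      refine ⟨s.unpair.1, ⟨s, h1, rfl, ?_⟩, ⟨s, h3⟩⟩
      simp [cc, h]
    · exact ih h

/-- the candidate chosen is the least one -/
theorem exists_ch {b s n : ℕ} {S : List ℕ} (hE : Ent b s) (hn : n < s) (hnS : n ∉ S)
    (hw : wb (n / 2) s.unpair.1 s = true) : ∃ m ≤ n, ch b s S = some m := by
  have hmem : n ∈ cand s S := by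
    simp only [cand, List.mem_filter, List.mem_range, decide_eq_true_eq]
    exact ⟨hn, hnS, hw⟩
  have hsorted : (cand s S).Pairwise (· < ·) := List.Pairwise.filter _ List.pairwise_lt_range
  rcases hc : cand s S with _ | ⟨m, l⟩
  · rw [hc] at hmem
    simp at hmem
  · refine ⟨m, ?_, ?_⟩
    · rw [hc] at hmem hsorted
      rw [List.mem_cons] at hmem
      rcases hmem with rfl | hmem
      · exact le_rfl
      · exact ((List.pairwise_cons.1 hsorted).1 n hmem).le
    · simp [ch, hE, hc]

/-- a requirement with infinitely many chances is met -/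
theorem met {b e i : ℕ} (hi : i < 2)
    (hinf : {s | Ent b s ∧ wb e s.unpair.1 s = true}.Infinite) : ∃ s, 2 * e + i ∈ SS b s := by
  classical
  by_contra hcon
  push Not at hcon
  let n := 2 * e + i
  have hdiv : n / 2 = e := by simp only [n]; omega
  -- at every chance some smaller requirement is met
  have hstep : ∀ s, Ent b s → wb e s.unpair.1 s = true → n < s →
      ∃ m < n, m ∉ SS b s ∧ m ∈ SS b (s + 1) := by
    intro s hE hw hns
    obtain ⟨m, hm, hch⟩ := exists_ch (S := SS b s) hE hns (hcon s) (by rw [hdiv]; exact hw)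
    have hmem : m ∈ SS b (s + 1) := by
      simp only [SS, List.mem_append]
      left
      rw [hch]
      simp
    refine ⟨m, ?_, (ch_spec hch).2.1, hmem⟩
    rcases Nat.lt_or_ge m n with h | h
    · exact h
    · have : m = n := by omega
      rw [this] at hmem
      exact absurd hmem (hcon (s + 1))
  -- after some stage no smaller requirement is met any more
  have hstage : ∃ s0, ∀ m < n, ∀ s, m ∈ SS b s → m ∈ SS b s0 := by
    choose! f hf using fun (m : ℕ) (h : ∃ s, m ∈ SS b s) => h
    refine ⟨(Finset.range n).sup f, fun m hm s hs => ?_⟩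
    exact SS_mono (Finset.le_sup (f := f) (Finset.mem_range.2 hm)) (hf m ⟨s, hs⟩)
  obtain ⟨s0, hs0⟩ := hstage
  obtain ⟨s, ⟨hE, hw⟩, hs⟩ := hinf.exists_gt (max s0 n)
  have h1 : s0 < s := lt_of_le_of_lt (le_max_left _ _) hs
  have h2 : n < s := lt_of_le_of_lt (le_max_right _ _) hs
  obtain ⟨m, hm, hm1, hm2⟩ := hstep s hE hw h2
  exact hm1 (SS_mono h1.le (hs0 m hm _ hm2))

theorem half_property {b i : ℕ} (hi : i < 2) {V : Set ℕ} (hV : RE V) (hd : V ∩ half b i = ∅) :
    RE (V \ W b) := by
  obtain ⟨e, rfl⟩ := re_iff.1 hV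
  have hfin : {s | Ent b s ∧ wb e s.unpair.1 s = true}.Finite := by
    by_contra hinf
    obtain ⟨s, hs⟩ := met hi hinf
    obtain ⟨x, hx1, hx2⟩ := SS_spec hs
    have h1 : (2 * e + i) % 2 = i := by omega
    have h2 : (2 * e + i) / 2 = e := by omega
    rw [h1] at hx1
    rw [h2] at hx2
    have : x ∈ W e ∩ half b i := ⟨hx2, hx1⟩
    rw [hd] at this
    exact this
  let V' : Set ℕ := {x | ∃ t, wb e x t = true ∧ ∀ s < t + 1, ¬ (Ent b s ∧ s.unpair.1 = x)}
  have hV' : RE V' := by
    have h : PrimrecPred fun q : ℕ × ℕ => wb e q.1 q.2 = true ∧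
        ∀ s < q.2 + 1, ¬ (Ent b s ∧ s.unpair.1 = q.1) := by
      refine PrimrecPred.and (pred_wb (Primrec.const e) Primrec.fst Primrec.snd) ?_
      refine pred_forall_lt (P := fun r : (ℕ × ℕ) × ℕ => ¬ (Ent b r.2 ∧ r.2.unpair.1 = r.1.1))
        (Primrec.succ.comp Primrec.snd) (PrimrecPred.not (PrimrecPred.and ?_ ?_))
      · exact (pred_Ent b).comp Primrec.snd
      · exact Primrec.eq.comp (Primrec.fst.comp (Primrec.unpair.comp Primrec.snd))
          (Primrec.fst.comp Primrec.fst)
    exact re_exists' h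
  refine re_of_eqF ⟨?_, ?_⟩ hV'
  · refine (hfin.image fun s => s.unpair.1).subset ?_
    rintro x ⟨⟨t, ht, hns⟩, hx⟩
    have hxb : x ∈ W b := by
      by_contra h
      exact hx ⟨⟨t, ht⟩, h⟩
    obtain ⟨s, hs, hsx⟩ := exists_ent hxb
    have hst : t + 1 ≤ s := by
      by_contra hlt
      exact hns s (by omega) ⟨hs, hsx⟩
    refine ⟨s, ⟨hs, ?_⟩, hsx⟩
    rw [hsx]
    exact wb_mono (by omega) ht
  · have : (W e \ W b) \ V' = ∅ := by
      ext x
      simp only [Set.mem_sdiff, Set.mem_empty_iff_false, iff_false]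
      rintro ⟨⟨⟨t, ht⟩, hxb⟩, hx⟩
      apply hx
      refine ⟨t, ht, fun s _ => ?_⟩
      rintro ⟨hE, rfl⟩
      exact hxb (ent_mem hE)
    rw [this]
    exact Set.finite_empty

/-- Friedberg's splitting theorem. -/
theorem friedberg {B : Set ℕ} (hB : RE B) : ∃ A0 A1 : Set ℕ, RE A0 ∧ RE A1 ∧ A0 ∩ A1 = ∅ ∧
    A0 ∪ A1 = B ∧ (∀ V, RE V → RE (V \ A0) → RE (V \ B)) ∧
      (∀ V, RE V → RE (V \ A1) → RE (V \ B)) := by
  obtain ⟨b, rfl⟩ := re_iff.1 hB
  have key : ∀ i, i < 2 → ∀ V, RE (V \ half b i) → half b i ⊆ W b → RE (V \ W b) := by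
    intro i hi V hV hsub
    have h1 : (V \ half b i) ∩ half b i = ∅ := by
      ext x
      simp
    have h2 := half_property hi hV h1
    have h3 : (V \ half b i) \ W b = V \ W b := by
      ext x
      simp only [Set.mem_sdiff]
      constructor
      · rintro ⟨⟨h, -⟩, h'⟩
        exact ⟨h, h'⟩
      · rintro ⟨h, h'⟩
        exact ⟨⟨h, fun h2 => h' (hsub h2)⟩, h'⟩
    rw [h3] at h2
    exact h2
  refine ⟨half b 0, half b 1, re_half b 0, re_half b 1, half_disj (by omega), half_union b,
    fun V _ h => key 0 (by omega) V h ?_, fun V _ h => key 1 (by omega) V h ?_⟩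
  · rw [← half_union b]
    exact Set.subset_union_left
  · rw [← half_union b]
    exact Set.subset_union_right

end Pool.Agent.H53.DS
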