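import Pool.Agent.H53.DS.Maximal
import Pool.Agent.H53.DS.Split
import Pool.Agent.H53.DS.Small
import Pool.Agent.H53.DS.Auto

/-! The counterexample to the question of Downey and Stob. -/

namespace Pool.Agent.H53.DS

/-- an infinite r.e. set contains the range of an increasing computable function -/
theorem exists_increasing {V : Set ℕ} (hV : RE V) (hinf : V.Infinite) :
    ∃ a : ℕ → ℕ, Computable a ∧ StrictMono a ∧ ∀ n, a n ∈ V := by
  classical
  obtain ⟨e, rfl⟩ := re_iff.1 hV
  have hex : ∀ n, ∃ m : ℕ, wb e m.unpair.1 m.unpair.2 = true ∧ n ≤ m.unpair.1 := by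
    intro n
    obtain ⟨x, ⟨s, hs⟩, hx⟩ := hinf.exists_gt n
    exact ⟨Nat.pair x s, by simpa using hs, by simpa using hx.le⟩
  have hP : ComputablePred fun p : ℕ × ℕ =>
      wb e p.2.unpair.1 p.2.unpair.2 = true ∧ p.1 ≤ p.2.unpair.1 := by
    apply PrimrecPred.computablePred
    exact (pred_wb (Primrec.const e) (Primrec.fst.comp (Primrec.unpair.comp Primrec.snd))
      (Primrec.snd.comp (Primrec.unpair.comp Primrec.snd))).and
      (Primrec.nat_le.comp Primrec.fst (Primrec.fst.comp (Primrec.unpair.comp Primrec.snd)))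
  let g : ℕ → ℕ := fun n => (Nat.find (hex n)).unpair.1
  have hg : Computable g :=
    Computable.fst.comp (Primrec.unpair.to_comp.comp (Computable.find hP hex))
  have hg1 : ∀ n, g n ∈ W e := fun n => ⟨_, (Nat.find_spec (hex n)).1⟩
  have hg2 : ∀ n, n ≤ g n := fun n => (Nat.find_spec (hex n)).2
  refine ⟨fun n => Nat.rec (motive := fun _ => ℕ) (g 0) (fun _ v => g (v + 1)) n,
    Computable.nat_rec Computable.id (Computable.const (g 0))
      ((hg.comp (Primrec.succ.to_comp.comp (Computable.snd.comp Computable.snd))).to₂), ?_, ?_⟩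
  · apply strictMono_nat_of_lt_succ
    intro n
    exact hg2 _
  · intro n
    cases n with
    | zero => exact hg1 0
    | succ n => exact hg1 _

/-- an infinite r.e. set contains two disjoint infinite r.e. sets -/
theorem exists_two {V : Set ℕ} (hV : RE V) (hinf : V.Infinite) :
    ∃ R1 R2 : Set ℕ, R1 ⊆ V ∧ R2 ⊆ V ∧ RE R1 ∧ R1.Infinite ∧ R2.Infinite ∧ R1 ∩ R2 = ∅ := by
  obtain ⟨a, ha, hamono, haV⟩ := exists_increasing hV hinf
  refine ⟨{x | ∃ n, a (2 * n) = x}, {x | ∃ n, a (2 * n + 1) = x}, ?_, ?_, ?_, ?_, ?_, ?_⟩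
  · rintro _ ⟨n, rfl⟩
    exact haV (2 * n)
  · rintro _ ⟨n, rfl⟩
    exact haV (2 * n + 1)
  · have h0 : Computable fun q : ℕ × ℕ => a (2 * q.2) :=
      ha.comp (Primrec.nat_mul.to_comp.comp (Computable.const 2) Computable.snd)
    have h1 : Computable fun q : ℕ × ℕ => decide (a (2 * q.2) = q.1) :=
      (Primrec.eq (α := ℕ)).decide.to_comp.comp h0 Computable.fst
    exact re_exists (p := fun q : ℕ × ℕ => a (2 * q.2) = q.1) h1.computablePred
  · have : {x | ∃ n, a (2 * n) = x} = Set.range fun n => a (2 * n) := rfl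
    rw [this]
    refine Set.infinite_range_of_injective fun m n h => ?_
    have := hamono.injective h
    omega
  · have : {x | ∃ n, a (2 * n + 1) = x} = Set.range fun n => a (2 * n + 1) := rfl
    rw [this]
    refine Set.infinite_range_of_injective fun m n h => ?_
    have := hamono.injective h
    omega
  · ext x
    simp only [Set.mem_inter_iff, Set.mem_ofPred_eq, Set.mem_empty_iff_false, iff_false]
    rintro ⟨⟨m, hm⟩, ⟨n, hn⟩⟩
    rw [← hn] at hm
    have := hamono.injective hm
    omega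

/-- the complement of a maximal set is not r.e. -/
theorem IsMax.not_re {M : Set ℕ} (h : IsMax M) : ¬ RE Mᶜ := by
  intro hre
  obtain ⟨R1, R2, h1, h2, h3, h4, h5, h6⟩ := exists_two hre h.1
  rcases h.2 R1 h3 with h7 | h7
  · apply h4
    exact h7.subset fun x hx => ⟨h1 hx, hx⟩
  · apply h5
    refine h7.subset fun x hx => ⟨h2 hx, fun hx1 => ?_⟩
    have : x ∈ R1 ∩ R2 := ⟨hx1, hx⟩
    rw [h6] at this
    exact this

/-- the sets used in the counterexample -/
structure Data (M E F B' C0 C1 : Set ℕ) : Prop where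
  reM : RE M
  reE : RE E
  reF : RE F
  reB' : RE B'
  reC0 : RE C0
  reC1 : RE C1
  maxM : IsMax M
  disjEF : E ∩ F = ∅
  unionEF : E ∪ F = M
  splitE : ∀ V, RE V → RE (V \ E) → RE (V \ M)
  splitF : ∀ V, RE V → RE (V \ F) → RE (V \ M)
  sub : B' ⊆ F
  major : ∀ R, Recu R → R ⊆ F → (R \ B').Finite
  small : ∀ G, RE G → G ⊆ B' → RE (F \ G) → Recu G
  disjC : C0 ∩ C1 = ∅
  unionC : C0 ∪ C1 = B'
  splitC0 : ∀ V, RE V → RE (V \ C0) → RE (V \ B')
  splitC1 : ∀ V, RE V → RE (V \ C1) → RE (V \ B')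

theorem exists_data : ∃ M E F B' C0 C1, Data M E F B' C0 C1 := by
  obtain ⟨M, hM, hinf, hmax⟩ := exists_maximal
  obtain ⟨E, F, hE, hF, hEF, hEFM, h1, h2⟩ := friedberg hM
  obtain ⟨f, rfl⟩ := re_iff.1 hF
  obtain ⟨C0, C1, hC0, hC1, hC, hCB, h3, h4⟩ := friedberg (re_Bs f)
  exact ⟨M, E, W f, Bs f, C0, C1, hM, hE, hF, re_Bs f, hC0, hC1, ⟨hinf, hmax⟩, hEF, hEFM, h1, h2,
    Bs_subset f, fun R hR hs => Bs_major hR hs, fun G hG hs hH => Bs_small hG hs hH, hC, hCB,
    h3, h4⟩

namespace Data

variable {M E F B' C0 C1 : Set ℕ} (D : Data M E F B' C0 C1)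

include D

theorem E_not_recu : ¬ RE Eᶜ := by
  intro h
  apply D.maxM.not_re
  have := D.splitE Set.univ re_univ (by rwa [← Set.compl_eq_univ_sdiff])
  rwa [← Set.compl_eq_univ_sdiff] at this

theorem F_not_recu : ¬ RE Fᶜ := by
  intro h
  apply D.maxM.not_re
  have := D.splitF Set.univ re_univ (by rwa [← Set.compl_eq_univ_sdiff])
  rwa [← Set.compl_eq_univ_sdiff] at this

theorem X_infinite : (F \ B').Infinite := by
  intro hfin
  apply D.F_not_recu
  have h1 : Recu B' := D.small B' D.reB' subset_rfl (re_finite hfin)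
  have h2 : Recu F := by
    have : F = B' ∪ (F \ B') := by
      rw [Set.union_sdiff_self]
      exact (Set.union_eq_self_of_subset_left D.sub).symm
    rw [this]
    exact h1.union (Recu.finite hfin)
  exact h2.2

theorem notMem_E_of_mem_F {x : ℕ} (h : x ∈ F) : x ∉ E := by
  intro h'
  have : x ∈ E ∩ F := ⟨h', h⟩
  rw [D.disjEF] at this
  exact this

/-- `E` is almost the largest r.e. set disjoint from `B'` -/
theorem disj_B' {V : Set ℕ} (hV : RE V) (hd : V ∩ B' = ∅) : (V \ E).Finite := by
  have h1 : (V ∩ F).Finite := by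
    by_contra hinf
    obtain ⟨R, hRs, hR, hRinf⟩ := exists_recu_subset (re_inter hV D.reF) hinf
    apply hRinf
    refine (D.major R hR (hRs.trans Set.inter_subset_right)).subset fun x hx => ⟨hx, fun hx' => ?_⟩
    have : x ∈ V ∩ B' := ⟨(hRs hx).1, hx'⟩
    rw [hd] at this
    exact this
  rcases D.maxM.2 V hV with h2 | h2
  · refine (h1.union h2).subset ?_
    rintro x ⟨hx, hxE⟩
    by_cases hxF : x ∈ F
    · exact Or.inl ⟨hx, hxF⟩
    · refine Or.inr ⟨fun hxM => ?_, hx⟩
      rw [← D.unionEF] at hxM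
      rcases hxM with h | h
      · exact hxE h
      · exact hxF h
  · exfalso
    apply D.F_not_recu
    refine re_of_eqF ⟨?_, ?_⟩ (re_union hV D.reE)
    · refine h1.subset ?_
      rintro x ⟨hx, hxF⟩
      rw [Set.mem_compl_iff, not_not] at hxF
      rcases hx with hx | hx
      · exact ⟨hx, hxF⟩
      · exact absurd hx (D.notMem_E_of_mem_F hxF)
    · refine h2.subset ?_
      rintro x ⟨hx, hxVE⟩
      refine ⟨fun hxM => ?_, fun h => hxVE (Or.inl h)⟩
      rw [← D.unionEF] at hxM
      rcases hxM with h | h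
      · exact hxVE (Or.inr h)
      · exact hx h

/-- simplicity of `B` -/
theorem simple : ((E ∪ B')ᶜ).Infinite ∧ ∀ V, RE V → V ⊆ (E ∪ B')ᶜ → V.Finite := by
  constructor
  · refine D.X_infinite.mono ?_
    rintro x ⟨hx, hxB⟩
    rw [Set.mem_compl_iff]
    rintro (h | h)
    · exact D.notMem_E_of_mem_F hx h
    · exact hxB h
  · intro V hV hsub
    have h1 : V ∩ B' = ∅ := by
      ext x
      simp only [Set.mem_inter_iff, Set.mem_empty_iff_false, iff_false]
      rintro ⟨hx, hxB⟩
      exact hsub hx (Or.inr hxB)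
    refine (D.disj_B' hV h1).subset fun x hx => ⟨hx, fun hE => hsub hx (Or.inl hE)⟩

theorem C0_sub : C0 ⊆ B' := by rw [← D.unionC]; exact Set.subset_union_left

theorem C1_sub : C1 ⊆ B' := by rw [← D.unionC]; exact Set.subset_union_right

theorem union_eq : (E ∪ C0) ∪ C1 = E ∪ B' := by rw [Set.union_assoc, D.unionC]

theorem disj : (E ∪ C0) ∩ C1 = ∅ := by
  ext x
  simp only [Set.mem_inter_iff, Set.mem_union, Set.mem_empty_iff_false, iff_false]
  rintro ⟨h | h, h1⟩
  · exact D.notMem_E_of_mem_F (D.sub (D.C1_sub h1)) h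
  · have : x ∈ C0 ∩ C1 := ⟨h, h1⟩
    rw [D.disjC] at this
    exact this

/-- the first half of the Friedberg property -/
theorem friedberg0 {V : Set ℕ} (hV : RE (V \ (E ∪ C0))) : RE (V \ (E ∪ B')) := by
  have h1 : RE ((V \ (E ∪ C0)) \ B') := by
    refine D.splitC0 _ hV ?_
    have : (V \ (E ∪ C0)) \ C0 = V \ (E ∪ C0) := by
      ext x
      simp only [Set.mem_sdiff, Set.mem_union]
      tauto
    rw [this]
    exact hV
  have h2 : (V \ (E ∪ C0)) \ B' = V \ (E ∪ B') := by
    ext x
    simp only [Set.mem_sdiff, Set.mem_union]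
    constructor
    · rintro ⟨⟨h3, h4⟩, h5⟩
      exact ⟨h3, fun h => h.elim (fun h => h4 (Or.inl h)) h5⟩
    · rintro ⟨h3, h4⟩
      exact ⟨⟨h3, fun h => h4 (h.imp id fun h => D.C0_sub h)⟩, fun h => h4 (Or.inr h)⟩
  rw [h2] at h1
  exact h1

/-- the second half of the Friedberg property -/
theorem friedberg1 {V : Set ℕ} (hRE : RE V) (hV : RE (V \ C1)) : RE (V \ (E ∪ B')) := by
  have h1 := D.splitC1 V hRE hV
  have h2 : (V \ B') ∩ B' = ∅ := by
    ext x
    simp
  have h3 := D.disj_B' h1 h2
  have h4 : (V \ B') \ E = V \ (E ∪ B') := by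
    ext x
    simp only [Set.mem_sdiff, Set.mem_union]
    tauto
  rw [h4] at h3
  exact re_finite h3

/-- the two halves are not automorphic -/
theorem not_auto (x y : T) (hx : x.val = E ∪ C0) (hy : y.val = C1) :
    ¬ ∃ Φ : T ≃o T, Φ x = y := by
  rintro ⟨Φ, hΦ⟩
  let e : T := ⟨E, D.reE⟩
  let f : T := ⟨F, D.reF⟩
  let m : T := ⟨M, D.reM⟩
  let c : T := ⟨C0, D.reC0⟩
  -- images
  have hy' : C1 = (Φ e).val ∪ (Φ c).val := by
    rw [← hy, ← hΦ]
    exact map_union Φ e c x hx
  have hdis : (Φ e).val ∩ (Φ c).val = ∅ := by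
    rw [← map_inter Φ e c ⟨∅, re_finite Set.finite_empty⟩ ?_]
    · exact map_empty Φ _ rfl
    · ext z
      simp only [Set.mem_empty_iff_false, false_iff]
      rintro ⟨h1, h2⟩
      exact D.notMem_E_of_mem_F (D.sub (D.C0_sub h2)) h1
  have hm' : (Φ m).val = (Φ e).val ∪ (Φ f).val := map_union Φ e f m D.unionEF.symm
  have hdis2 : (Φ e).val ∩ (Φ f).val = ∅ := by
    rw [← map_inter Φ e f ⟨∅, re_finite Set.finite_empty⟩ D.disjEF.symm]
    exact map_empty Φ _ rfl
  have hmax : IsMax (Φ m).val := map_isMax Φ m D.maxM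
  have heC1 : (Φ e).val ⊆ C1 := by rw [hy']; exact Set.subset_union_left
  have heB' : (Φ e).val ⊆ B' := heC1.trans D.C1_sub
  have heF : (Φ e).val ⊆ F := heB'.trans D.sub
  have hnr : ¬ Recu (Φ e).val := by
    intro h
    apply D.E_not_recu
    have := map_recu Φ.symm (Φ e) h
    rw [OrderIso.symm_apply_apply] at this
    exact this.2
  apply hnr
  by_cases hcof : ((M ∪ (Φ m).val)ᶜ).Finite
  · -- separation by a recursive set
    obtain ⟨U, U', hU, hU', hUM, hUM', hUU, hUUd⟩ := reduction D.reM (Φ m).2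
    have hUrec : Recu U := by
      refine ⟨hU, re_of_eqF (A := U') ⟨?_, ?_⟩ hU'⟩
      · have : U' \ Uᶜ = ∅ := by
          ext z
          simp only [Set.mem_sdiff, Set.mem_compl_iff, not_not, Set.mem_empty_iff_false, iff_false]
          rintro ⟨h1, h2⟩
          have : z ∈ U ∩ U' := ⟨h2, h1⟩
          rw [hUUd] at this
          exact this
        rw [this]
        exact Set.finite_empty
      · refine hcof.subset ?_
        rintro z ⟨h1, h2⟩
        rw [Set.mem_compl_iff, ← hUU]
        rintro (h3 | h3)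
        · exact h1 h3
        · exact h2 h3
    -- the part outside `U`
    have hpart1 : Recu ((Φ e).val ∩ Uᶜ) := by
      refine ⟨re_inter (Φ e).2 hUrec.2, ?_⟩
      refine re_of_eqF (A := U ∪ (Φ f).val) ⟨?_, ?_⟩ (re_union hU (Φ f).2)
      · have : (U ∪ (Φ f).val) \ ((Φ e).val ∩ Uᶜ)ᶜ = ∅ := by
          ext z
          simp only [Set.mem_sdiff, Set.mem_union, Set.mem_compl_iff, Set.mem_inter_iff, not_not,
            Set.mem_empty_iff_false, iff_false]
          rintro ⟨h1 | h1, h2, h3⟩
          · exact h3 h1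
          · have : z ∈ (Φ e).val ∩ (Φ f).val := ⟨h2, h1⟩
            rw [hdis2] at this
            exact this
        rw [this]
        exact Set.finite_empty
      · refine hcof.subset ?_
        rintro z ⟨h1, h2⟩
        simp only [Set.mem_compl_iff, Set.mem_inter_iff, not_and, not_not, Set.mem_union,
          not_or] at h1 h2 ⊢
        have h3 : z ∉ (Φ e).val := fun h => h2.1 (h1 h)
        have h4 : z ∉ (Φ m).val := by
          rw [hm']
          rintro (h | h)
          · exact h3 h
          · exact h2.2 h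
        refine ⟨fun h => ?_, h4⟩
        have h5 : z ∈ U ∪ U' := by
          rw [hUU]
          exact Or.inl h
        rcases h5 with h5 | h5
        · exact h2.1 h5
        · exact h4 (hUM' h5)
    -- the part inside `U`
    have hR' : Recu (U ∩ F) := by
      refine ⟨re_inter hU D.reF, ?_⟩
      have : (U ∩ F)ᶜ = Uᶜ ∪ (U ∩ E) := by
        ext z
        simp only [Set.mem_compl_iff, Set.mem_inter_iff, Set.mem_union]
        constructor
        · intro h
          by_cases hz : z ∈ U
          · have h6 := hUM hz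
            rw [← D.unionEF] at h6
            rcases h6 with h6 | h6
            · exact Or.inr ⟨hz, h6⟩
            · exact absurd ⟨hz, h6⟩ h
          · exact Or.inl hz
        · rintro (h | ⟨-, h⟩) ⟨h1, h2⟩
          · exact h h1
          · exact D.notMem_E_of_mem_F h2 h
      rw [this]
      exact re_union hUrec.2 (re_inter hU D.reE)
    have hRB := D.major _ hR' Set.inter_subset_right
    have hpart2 : Recu ((Φ e).val ∩ U) := by
      refine ⟨re_inter (Φ e).2 hU, ?_⟩
      refine re_of_eqF (A := (U ∩ F)ᶜ ∪ (C0 ∪ (Φ c).val)) ⟨?_, ?_⟩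
        (re_union hR'.2 (re_union D.reC0 (Φ c).2))
      · have : ((U ∩ F)ᶜ ∪ (C0 ∪ (Φ c).val)) \ ((Φ e).val ∩ U)ᶜ = ∅ := by
          ext z
          simp only [Set.mem_sdiff, Set.mem_union, Set.mem_compl_iff, Set.mem_inter_iff, not_not,
            Set.mem_empty_iff_false, iff_false, not_and]
          rintro h1 h2 h3
          rcases h1 with h1 | h1 | h1
          · exact h1 h3 (heF h2)
          · have : z ∈ C0 ∩ C1 := ⟨h1, heC1 h2⟩
            rw [D.disjC] at this
            exact this
          · have : z ∈ (Φ e).val ∩ (Φ c).val := ⟨h2, h1⟩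
            rw [hdis] at this
            exact this
        rw [this]
        exact Set.finite_empty
      · refine hRB.subset ?_
        rintro z ⟨h1, h2⟩
        simp only [Set.mem_compl_iff, Set.mem_inter_iff, not_and, Set.mem_union,
          not_or, not_forall, not_not] at h1 h2
        obtain ⟨⟨hzU, hzF⟩, hzC0, hzc⟩ := h2
        refine ⟨⟨hzU, hzF⟩, fun hzB => ?_⟩
        rw [← D.unionC, hy'] at hzB
        rcases hzB with h | h | h
        · exact hzC0 h
        · exact h1 h hzU
        · exact hzc h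
    have : (Φ e).val = ((Φ e).val ∩ Uᶜ) ∪ ((Φ e).val ∩ U) := by
      ext z
      simp only [Set.mem_union, Set.mem_inter_iff, Set.mem_compl_iff]
      tauto
    rw [this]
    exact hpart1.union hpart2
  · -- the maximal sets coincide up to a finite set
    have hFm : (F \ (Φ m).val).Finite := by
      rcases hmax.2 M D.reM with h1 | h1
      · refine h1.subset ?_
        rintro z ⟨h2, h3⟩
        refine ⟨h3, ?_⟩
        rw [← D.unionEF]
        exact Or.inr h2
      · exfalso
        apply hcof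
        refine h1.subset ?_
        intro z hz
        rw [Set.mem_compl_iff, Set.mem_union, not_or] at hz
        exact ⟨hz.2, hz.1⟩
    apply D.small _ (Φ e).2 heB'
    refine re_of_eqF (A := F ∩ (Φ f).val) ⟨?_, ?_⟩ (re_inter D.reF (Φ f).2)
    · have : (F ∩ (Φ f).val) \ (F \ (Φ e).val) = ∅ := by
        rw [Set.eq_empty_iff_forall_notMem]
        rintro z ⟨⟨h1, h2⟩, h3⟩
        have h4 : z ∈ (Φ e).val := by
          by_contra h
          exact h3 ⟨h1, h⟩
        have : z ∈ (Φ e).val ∩ (Φ f).val := ⟨h4, h2⟩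
        rw [hdis2] at this
        exact this
      rw [this]
      exact Set.finite_empty
    · refine hFm.subset ?_
      rintro z ⟨⟨h1, h2⟩, h3⟩
      refine ⟨h1, fun h4 => ?_⟩
      rw [hm'] at h4
      rcases h4 with h4 | h4
      · exact h2 h4
      · exact h3 ⟨h1, h4⟩

end Data

/-- the class of automorphic images -/
theorem orbit_simple {B : Set ℕ} (hB : RE B) (hinf : (Bᶜ).Infinite)
    (hs : ∀ V, RE V → V ⊆ Bᶜ → V.Finite) (Φ : T ≃o T) :
    ((Φ ⟨B, hB⟩).valᶜ).Infinite ∧ ∀ V, RE V → V ⊆ (Φ ⟨B, hB⟩).valᶜ → V.Finite := by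
  constructor
  · intro hfin
    apply hinf
    have := map_cofinite Φ.symm (Φ ⟨B, hB⟩) hfin
    rwa [OrderIso.symm_apply_apply] at this
  · intro V hV hsub
    let v : T := ⟨V, hV⟩
    have h1 : (Φ.symm v).val ⊆ Bᶜ := by
      intro z hz hzB
      have h2 := map_inter Φ (Φ.symm v) ⟨B, hB⟩
        ⟨_, re_inter (Φ.symm v).2 hB⟩ rfl
      rw [OrderIso.apply_symm_apply] at h2
      have h3 : v.val ∩ (Φ ⟨B, hB⟩).val = ∅ := by
        ext w
        simp only [Set.mem_inter_iff, Set.mem_empty_iff_false, iff_false]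
        rintro ⟨h4, h5⟩
        exact hsub h4 h5
      rw [h3] at h2
      have h6 := map_empty Φ.symm _ h2
      rw [OrderIso.symm_apply_apply] at h6
      have : z ∈ (∅ : Set ℕ) := by
        rw [← h6]
        exact ⟨hz, hzB⟩
      exact this
    have h2 := hs _ (Φ.symm v).2 h1
    have h3 := map_finite Φ _ h2
    rw [OrderIso.apply_symm_apply] at h3
    exact h3

end Pool.Agent.H53.DS
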