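import Pool.Agent.H53.DS.Basic

/-! Existence of a maximal set. -/

namespace Pool.Agent.H53.DS

/-- the `n`-state of `x` at stage `s` -/
def st : ℕ → ℕ → ℕ → ℕ
  | 0, x, s => (wb 0 x s).toNat
  | n + 1, x, s => 2 * st n x s + (wb (n + 1) x s).toNat

theorem toNat_le_one (b : Bool) : b.toNat ≤ 1 := by cases b <;> simp

theorem st_mono {n x s t : ℕ} (h : s ≤ t) : st n x s ≤ st n x t := by
  have key : ∀ e, (wb e x s).toNat ≤ (wb e x t).toNat := by
    intro e
    cases hs : wb e x s
    · simp
    · rw [wb_mono h hs]
  induction n with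
  | zero => exact key 0
  | succ n ih =>
    have := key (n + 1)
    simp only [st]
    omega

theorem st_lt (n x s : ℕ) : st n x s < 2 ^ (n + 1) := by
  induction n with
  | zero =>
    have := toNat_le_one (wb 0 x s)
    simp only [st]
    omega
  | succ n ih =>
    have := toNat_le_one (wb (n + 1) x s)
    simp only [st]
    rw [pow_succ]
    omega

theorem st_refine {m n x y s t : ℕ} (h : m ≤ n) (hlt : st m x s < st m y t) :
    st n x s < st n y t := by
  induction n, h using Nat.le_induction with
  | base => exact hlt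
  | succ n _ ih =>
    have := toNat_le_one (wb (n + 1) x s)
    simp only [st]
    omega

theorem st_lt_of {e x y s : ℕ} (h : ∀ i < e, wb i x s = wb i y s) (hy : wb e y s = true)
    (hx : wb e x s = false) : st e x s < st e y s := by
  have key : ∀ n, (∀ i ≤ n, wb i x s = wb i y s) → st n x s = st n y s := by
    intro n
    induction n with
    | zero =>
      intro h
      simp only [st, h 0 le_rfl]
    | succ n ih =>
      intro h
      simp only [st, h (n + 1) le_rfl, ih fun i hi => h i (by omega)]
  cases e with
  | zero => simp [st, hx, hy]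
  | succ e =>
    simp only [st, hx, hy, key e fun i hi => h i (by omega), Bool.toNat_true, Bool.toNat_false]
    omega

/-- the index of `x` -/
def idx (A : Finset ℕ) (x : ℕ) : ℕ := (A.filter (· < x)).card

/-- `x` has to be dumped -/
def Bad (s : ℕ) (A : Finset ℕ) (x : ℕ) : Prop :=
  ∃ y ∈ A, x < y ∧ st (idx A x) x s < st (idx A x) y s

instance (s : ℕ) (A : Finset ℕ) : DecidablePred (Bad s A) := fun x => by
  unfold Bad
  infer_instance

/-- the elements not yet dumped at stage `s` -/
def AA : ℕ → Finset ℕ
  | 0 => ∅
  | s + 1 => (insert s (AA s)).filter (fun x => ¬ Bad s (insert s (AA s)) x)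

/-- the elements considered at stage `s` -/
def BB (s : ℕ) : Finset ℕ := insert s (AA s)

theorem mem_AA_succ {s x : ℕ} : x ∈ AA (s + 1) ↔ x ∈ BB s ∧ ¬ Bad s (BB s) x := by
  simp [AA, BB]

theorem AA_lt {s x : ℕ} (h : x ∈ AA s) : x < s := by
  induction s with
  | zero => simp [AA] at h
  | succ s ih =>
    rw [mem_AA_succ, BB, Finset.mem_insert] at h
    rcases h.1 with rfl | h
    · omega
    · have := ih h
      omega

theorem AA_subset_BB (s : ℕ) : AA s ⊆ BB s := Finset.subset_insert _ _

theorem AA_mono {s t x : ℕ} (hx : x < s) (hst : s ≤ t) (h : x ∈ AA t) : x ∈ AA s := by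
  induction t, hst using Nat.le_induction with
  | base => exact h
  | succ t hst ih =>
    rw [mem_AA_succ, BB, Finset.mem_insert] at h
    rcases h.1 with rfl | h
    · omega
    · exact ih h

theorem idx_lt {A : Finset ℕ} {x y : ℕ} (hx : x ∈ A) (hxy : x < y) : idx A x < idx A y := by
  apply Finset.card_lt_card
  rw [Finset.ssubset_iff_of_subset]
  · exact ⟨x, by simp [hx, hxy], by simp⟩
  · intro z hz
    rw [Finset.mem_filter] at hz ⊢
    exact ⟨hz.1, by omega⟩

theorem idx_inj {A : Finset ℕ} {x y : ℕ} (hx : x ∈ A) (hy : y ∈ A) (h : idx A x = idx A y) :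
    x = y := by
  rcases lt_trichotomy x y with h1 | h1 | h1
  · have := idx_lt hx h1
    omega
  · exact h1
  · have := idx_lt hy h1
    omega

theorem idx_BB {s x : ℕ} (hx : x ∈ AA s) : idx (BB s) x = idx (AA s) x := by
  have := AA_lt hx
  unfold idx BB
  rw [Finset.filter_insert, if_neg (by omega)]

theorem idx_AA_succ_le {s x : ℕ} (hx : x < s) : idx (AA (s + 1)) x ≤ idx (AA s) x := by
  apply Finset.card_le_card
  intro z hz
  rw [Finset.mem_filter] at hz ⊢
  refine ⟨?_, hz.2⟩
  have := (mem_AA_succ.1 hz.1).1
  rw [BB, Finset.mem_insert] at this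
  rcases this with rfl | h
  · omega
  · exact h

/-- a set with more than `n` elements has an element of index `n` -/
theorem exists_idx {A : Finset ℕ} {n : ℕ} (h : n < A.card) : ∃ x ∈ A, idx A x = n := by
  have hsurj : Finset.image (idx A) A = Finset.range A.card := by
    apply Finset.eq_of_subset_of_card_le
    · intro m hm
      rw [Finset.mem_image] at hm
      obtain ⟨x, hx, rfl⟩ := hm
      rw [Finset.mem_range]
      apply Finset.card_lt_card
      rw [Finset.ssubset_iff_of_subset (Finset.filter_subset _ _)]
      exact ⟨x, hx, by simp⟩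
    · rw [Finset.card_range, Finset.card_image_of_injOn]
      intro x hx y hy hxy
      exact idx_inj hx hy hxy
  have : n ∈ Finset.image (idx A) A := by
    rw [hsurj, Finset.mem_range]
    exact h
  rw [Finset.mem_image] at this
  exact this

/-- one step: what happens to the element of index `n` -/
theorem step {s n x : ℕ} (hx : x ∈ BB s) (hn : idx (BB s) x = n)
    (hkeep : ∀ w ∈ BB s, w < x → w ∈ AA (s + 1)) :
    ∃ z ∈ AA (s + 1), idx (AA (s + 1)) z = n ∧ (z = x ∨ st n x s < st n z s) := by
  by_cases hbad : Bad s (BB s) x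
  · obtain ⟨y0, hy0, hxy0, hst0⟩ := hbad
    rw [hn] at hst0
    -- the best state above `x`
    let Y : Finset ℕ := (BB s).filter (fun y => x < y)
    have hY : Y.Nonempty := ⟨y0, by simp [Y, hy0, hxy0]⟩
    obtain ⟨y1, hy1, hmax⟩ := Finset.exists_max_image Y (fun y => st n y s) hY
    let Z : Finset ℕ := Y.filter (fun y => st n y s = st n y1 s)
    have hZ : Z.Nonempty := ⟨y1, by simp [Z, hy1]⟩
    obtain ⟨y2, hy2, hmax2⟩ := Finset.exists_max_image Z id hZ
    simp only [Z, Finset.mem_filter] at hy2
    have hy2Y := hy2.1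
    simp only [Y, Finset.mem_filter] at hy2Y
    have hkept : y2 ∈ AA (s + 1) := by
      rw [mem_AA_succ]
      refine ⟨hy2Y.1, ?_⟩
      rintro ⟨z, hz, hyz, hstz⟩
      have hidx : n ≤ idx (BB s) y2 := by
        have := idx_lt hx hy2Y.2
        omega
      have hzY : z ∈ Y := by
        simp only [Y, Finset.mem_filter]
        exact ⟨hz, by omega⟩
      have h1 := hmax z hzY
      have h2 : ¬ st n z s < st n y2 s := by
        intro hlt
        have := st_refine hidx hlt
        omega
      have h3 : st n z s = st n y1 s := by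
        have := hy2.2
        omega
      have h4 := hmax2 z (by simp only [Z, Finset.mem_filter]; exact ⟨hzY, h3⟩)
      simp only [id] at h4
      omega
    -- the first element kept above `x`
    let K : Finset ℕ := (AA (s + 1)).filter (fun y => x < y)
    have hK : K.Nonempty := ⟨y2, by simp only [K, Finset.mem_filter]; exact ⟨hkept, hy2Y.2⟩⟩
    obtain ⟨z, hz, hmin⟩ := Finset.exists_min_image K id hK
    simp only [K, Finset.mem_filter] at hz
    have hzB := (mem_AA_succ.1 hz.1).1
    have hz2 : z ≤ y2 := by
      have := hmin y2 (by simp only [K, Finset.mem_filter]; exact ⟨hkept, hy2Y.2⟩)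
      simpa using this
    have hzst : st n z s = st n y1 s := by
      have hzY : z ∈ Y := by
        simp only [Y, Finset.mem_filter]
        exact ⟨hzB, hz.2⟩
      have h1 := hmax z hzY
      by_contra hne
      have hlt : st n z s < st n y2 s := by
        have := hy2.2
        omega
      have hzy : z < y2 := by
        rcases Nat.lt_or_ge z y2 with h | h
        · exact h
        · have : z = y2 := by omega
          subst this
          omega
      have hidx : n ≤ idx (BB s) z := by
        have := idx_lt hx hz.2
        omega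
      exact (mem_AA_succ.1 hz.1).2 ⟨y2, hy2Y.1, hzy, st_refine hidx hlt⟩
    refine ⟨z, hz.1, ?_, Or.inr ?_⟩
    · rw [← hn]
      unfold idx
      congr 1
      ext w
      simp only [Finset.mem_filter]
      constructor
      · rintro ⟨hw, hwz⟩
        have hwB := (mem_AA_succ.1 hw).1
        refine ⟨hwB, ?_⟩
        rcases lt_trichotomy w x with h | h | h
        · exact h
        · subst h
          exact absurd ⟨y0, hy0, hxy0, by rw [hn]; exact hst0⟩ (mem_AA_succ.1 hw).2
        · have := hmin w (by simp only [K, Finset.mem_filter]; exact ⟨hw, h⟩)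
          simp only [id] at this
          omega
      · rintro ⟨hw, hwx⟩
        exact ⟨hkeep w hw hwx, by omega⟩
    · have hy0Y : y0 ∈ Y := by
        simp only [Y, Finset.mem_filter]
        exact ⟨hy0, hxy0⟩
      have := hmax y0 hy0Y
      omega
  · refine ⟨x, mem_AA_succ.2 ⟨hx, hbad⟩, ?_, Or.inl rfl⟩
    rw [← hn]
    unfold idx
    congr 1
    ext w
    simp only [Finset.mem_filter]
    constructor
    · rintro ⟨hw, hwx⟩
      exact ⟨(mem_AA_succ.1 hw).1, hwx⟩
    · rintro ⟨hw, hwx⟩
      exact ⟨hkeep w hw hwx, hwx⟩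

/-- every index stabilizes -/
theorem exists_limit (n : ℕ) : ∃ a s0, ∀ s ≥ s0, a ∈ AA s ∧ idx (AA s) a = n := by
  classical
  induction n using Nat.strong_induction_on with
  | _ n ih =>
    choose! a t hat using ih
    -- a common stage
    let s0 := (Finset.range n).sup t
    have hs0 : ∀ m < n, ∀ s ≥ s0, a m ∈ AA s ∧ idx (AA s) (a m) = m := by
      intro m hm s hs
      exact hat m hm s (le_trans (Finset.le_sup (f := t) (Finset.mem_range.2 hm)) hs)
    -- the elements of index less than `n` are kept
    have hkeep : ∀ s ≥ s0, ∀ x ∈ BB s, idx (BB s) x = n → ∀ w ∈ BB s, w < x →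
        w ∈ AA (s + 1) := by
      intro s hs x hx hxn w hw hwx
      have h1 : idx (BB s) w < n := by
        have := idx_lt hw hwx
        omega
      have h2 := hs0 _ h1 s hs
      have h3 := idx_BB h2.1
      rw [h2.2] at h3
      have h4 := idx_inj hw (AA_subset_BB s h2.1) (by rw [h3])
      have h5 := (hs0 _ h1 (s + 1) (by omega)).1
      rw [h4]
      exact h5
    have hex : ∀ s ≥ s0, ∃ z ∈ AA (s + 1), idx (AA (s + 1)) z = n := by
      intro s hs
      have hcard : n < (BB s).card := by
        have h1 : n ≤ (AA s).card := by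
          have hinj : Set.InjOn a (Finset.range n : Set ℕ) := by
            intro i hi j hj hij
            have h1 := (hs0 i (by simpa using hi) s hs).2
            have h2 := (hs0 j (by simpa using hj) s hs).2
            rw [hij] at h1
            omega
          calc n = (Finset.range n).card := (Finset.card_range n).symm
            _ = ((Finset.range n).image a).card := (Finset.card_image_of_injOn hinj).symm
            _ ≤ (AA s).card := by
              apply Finset.card_le_card
              intro x hx
              rw [Finset.mem_image] at hx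
              obtain ⟨m, hm, rfl⟩ := hx
              exact (hs0 m (Finset.mem_range.1 hm) s hs).1
        rw [BB, Finset.card_insert_of_notMem]
        · omega
        · intro h
          have := AA_lt h
          omega
      obtain ⟨x, hx, hxn⟩ := exists_idx hcard
      obtain ⟨z, hz, hzn, -⟩ := step hx hxn (hkeep s hs x hx hxn)
      exact ⟨z, hz, hzn⟩
    -- the element of index `n`
    have hex' : ∀ s, ∃ z, s0 + 1 ≤ s → z ∈ AA s ∧ idx (AA s) z = n := by
      intro s
      by_cases hs : s0 + 1 ≤ s
      · obtain ⟨r, rfl⟩ : ∃ r, s = r + 1 := ⟨s - 1, by omega⟩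
        obtain ⟨z, hz⟩ := hex r (by omega)
        exact ⟨z, fun _ => hz⟩
      · exact ⟨0, fun h => absurd h hs⟩
    choose c hc using hex'
    have hstep : ∀ s ≥ s0 + 1, c (s + 1) = c s ∨ st n (c s) s < st n (c (s + 1)) s := by
      intro s hs
      have h1 := hc s hs
      have h2 : idx (BB s) (c s) = n := by rw [idx_BB h1.1, h1.2]
      obtain ⟨z, hz, hzn, hor⟩ := step (AA_subset_BB s h1.1) h2
        (hkeep s (by omega) (c s) (AA_subset_BB s h1.1) h2)
      have h3 := hc (s + 1) (by omega)
      have h4 : z = c (s + 1) := idx_inj hz h3.1 (by rw [hzn, h3.2])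
      rw [← h4]
      exact hor
    let v : ℕ → ℕ := fun s => st n (c s) s
    have hv1 : ∀ s ≥ s0 + 1, v s ≤ v (s + 1) := by
      intro s hs
      rcases hstep s hs with h | h
      · simp only [v, h]
        exact st_mono (by omega)
      · have := st_mono (n := n) (x := c (s + 1)) (show s ≤ s + 1 by omega)
        simp only [v]
        omega
    have hv2 : ∀ s ≥ s0 + 1, c (s + 1) ≠ c s → v s < v (s + 1) := by
      intro s hs hne
      rcases hstep s hs with h | h
      · exact absurd h hne
      · have := st_mono (n := n) (x := c (s + 1)) (show s ≤ s + 1 by omega)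
        simp only [v]
        omega
    -- eventually constant
    have hmax : ∃ s1 ≥ s0 + 1, ∀ s ≥ s1, v s = v s1 := by
      by_contra hcon
      push Not at hcon
      have hgrow : ∀ k, ∃ s ≥ s0 + 1, k ≤ v s := by
        intro k
        induction k with
        | zero => exact ⟨s0 + 1, le_rfl, Nat.zero_le _⟩
        | succ k ihk =>
          obtain ⟨s, hs, hk⟩ := ihk
          obtain ⟨s', hs', hne⟩ := hcon s hs
          have hmono : ∀ r ≥ s, v s ≤ v r := by
            intro r hr
            induction r, hr using Nat.le_induction with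
            | base => exact le_rfl
            | succ r hr ihr => exact ihr.trans (hv1 r (by omega))
          have := hmono s' hs'
          exact ⟨s', by omega, by omega⟩
      obtain ⟨s, -, hs⟩ := hgrow (2 ^ (n + 1))
      have := st_lt n (c s) s
      simp only [v] at hs
      omega
    obtain ⟨s1, hs1, hconst⟩ := hmax
    refine ⟨c s1, s1, fun s hs => ?_⟩
    have hcs : c s = c s1 := by
      induction s, hs using Nat.le_induction with
      | base => rfl
      | succ s hs ihs =>
        rw [← ihs]
        by_contra hne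
        have h1 := hv2 s (by omega) hne
        have h2 := hconst s hs
        have h3 := hconst (s + 1) (by omega)
        omega
    rw [← hcs]
    exact hc s (by omega)

/-- the maximal set -/
def MM : Set ℕ := {x | ∃ s, x < s ∧ x ∉ AA s}

theorem not_mem_MM {x : ℕ} : x ∉ MM ↔ ∀ s, x < s → x ∈ AA s := by
  simp [MM]

theorem MM_compl_infinite : (MMᶜ).Infinite := by
  choose a t hat using exists_limit
  have hinj : Function.Injective a := by
    intro m n hmn
    have h1 := (hat m (max (t m) (t n)) (le_max_left _ _)).2
    have h2 := (hat n (max (t m) (t n)) (le_max_right _ _)).2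
    rw [hmn] at h1
    omega
  refine (Set.infinite_range_of_injective hinj).mono ?_
  rintro _ ⟨n, rfl⟩
  rw [Set.mem_compl_iff, not_mem_MM]
  intro s hs
  rcases le_total (t n) s with h | h
  · exact (hat n s h).1
  · exact AA_mono hs h (hat n (t n) le_rfl).1

theorem MM_cohesive (e : ℕ) : (MMᶜ ∩ W e).Finite ∨ (MMᶜ \ W e).Finite := by
  classical
  choose a t hat using exists_limit
  have haM : ∀ n, a n ∉ MM := by
    intro n
    rw [not_mem_MM]
    intro s hs
    rcases le_total (t n) s with h | h
    · exact (hat n s h).1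
    · exact AA_mono hs h (hat n (t n) le_rfl).1
  have hamono : ∀ m n, m < n → a m < a n := by
    intro m n hmn
    have h1 := hat m (max (t m) (t n)) (le_max_left _ _)
    have h2 := hat n (max (t m) (t n)) (le_max_right _ _)
    rcases lt_trichotomy (a m) (a n) with h | h | h
    · exact h
    · rw [h] at h1
      omega
    · have := idx_lt h2.1 h
      omega
  -- every element of the complement is some `a n`
  have hall : ∀ x, x ∉ MM → ∃ n, x = a n := by
    intro x hx
    rw [not_mem_MM] at hx
    have hanti : ∀ s ≥ x + 1, idx (AA (s + 1)) x ≤ idx (AA s) x := fun s hs =>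
      idx_AA_succ_le (by omega)
    -- the minimal value of the index
    have hex : ∃ k, ∃ s ≥ x + 1, idx (AA s) x = k := ⟨_, x + 1, le_rfl, rfl⟩
    obtain ⟨s1, hs1, hk⟩ := Nat.find_spec hex
    have hmin : ∀ s ≥ x + 1, Nat.find hex ≤ idx (AA s) x := fun s hs =>
      Nat.find_min' hex ⟨s, hs, rfl⟩
    have hconst : ∀ s ≥ s1, idx (AA s) x = Nat.find hex := by
      intro s hs
      induction s, hs using Nat.le_induction with
      | base => exact hk
      | succ s hs ih =>
        have h1 := hanti s (by omega)
        have h2 := hmin (s + 1) (by omega)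
        omega
    refine ⟨Nat.find hex, ?_⟩
    have h1 := hat (Nat.find hex) (max (t (Nat.find hex)) s1) (le_max_left _ _)
    have h2 := hconst (max (t (Nat.find hex)) s1) (le_max_right _ _)
    have h3 : s1 ≤ max (t (Nat.find hex)) s1 := le_max_right _ _
    exact idx_inj (hx _ (by omega)) h1.1 (by rw [h2, h1.2])
  -- eventually all elements have the same state
  have hstate : ∀ e, ∃ N, ∀ m ≥ N, ∀ n ≥ N, (a m ∈ W e ↔ a n ∈ W e) := by
    intro e
    induction e using Nat.strong_induction_on with
    | _ e ih =>
      choose! N hN using ih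
      let N0 := max ((Finset.range e).sup N) e
      have hN0 : ∀ i < e, ∀ m ≥ N0, ∀ n ≥ N0, (a m ∈ W i ↔ a n ∈ W i) := by
        intro i hi m hm n hn
        have : N i ≤ N0 := le_trans (Finset.le_sup (f := N) (Finset.mem_range.2 hi))
          (le_max_left _ _)
        exact hN i hi m (by omega) n (by omega)
      by_contra hcon
      push Not at hcon
      -- an element outside followed by one inside
      have hpair : ∃ n ≥ N0, ∃ m > n, a n ∉ W e ∧ a m ∈ W e := by
        have hout : ∃ n ≥ N0, a n ∉ W e := by
          obtain ⟨m, hm, n, hn, h⟩ := hcon N0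
          rcases h with ⟨-, h⟩ | ⟨h, -⟩
          · exact ⟨n, hn, h⟩
          · exact ⟨m, hm, h⟩
        obtain ⟨n, hn, hnW⟩ := hout
        obtain ⟨m, hm, k, hk, h⟩ := hcon (n + 1)
        rcases h with ⟨h, -⟩ | ⟨-, h⟩
        · exact ⟨n, hn, m, by omega, hnW, h⟩
        · exact ⟨n, hn, k, by omega, hnW, h⟩
      obtain ⟨n, hn, m, hm, hnW, hmW⟩ := hpair
      -- a stage where everything is visible
      have hvis : ∀ x i, ∃ s0, ∀ s ≥ s0, (wb i x s = true ↔ x ∈ W i) := by
        intro x i
        by_cases h : x ∈ W i
        · obtain ⟨s0, hs0⟩ := h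
          exact ⟨s0, fun s hs => ⟨fun h => ⟨s, h⟩, fun _ => wb_mono hs hs0⟩⟩
        · exact ⟨0, fun s _ => ⟨fun h' => absurd ⟨s, h'⟩ h, fun h' => absurd h' h⟩⟩
      choose v hv using hvis
      let s := max (max (t n) (t m)) (max ((Finset.range (e + 1)).sup fun i => v (a n) i)
        ((Finset.range (e + 1)).sup fun i => v (a m) i))
      have hsn : t n ≤ s := le_trans (le_max_left _ _) (le_max_left _ _)
      have hsm : t m ≤ s := le_trans (le_max_right _ _) (le_max_left _ _)
      have hv1 : ∀ i ≤ e, (wb i (a n) s = true ↔ a n ∈ W i) := by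
        intro i hi
        refine hv (a n) i s ?_
        refine le_trans (Finset.le_sup (f := fun i => v (a n) i)
          (Finset.mem_range.2 (Nat.lt_succ_of_le hi))) ?_
        exact le_trans (le_max_left _ _) (le_max_right _ _)
      have hv2 : ∀ i ≤ e, (wb i (a m) s = true ↔ a m ∈ W i) := by
        intro i hi
        refine hv (a m) i s ?_
        refine le_trans (Finset.le_sup (f := fun i => v (a m) i)
          (Finset.mem_range.2 (Nat.lt_succ_of_le hi))) ?_
        exact le_trans (le_max_right _ _) (le_max_right _ _)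
      have hlt : st e (a n) s < st e (a m) s := by
        apply st_lt_of
        · intro i hi
          have h1 := hv1 i (by omega)
          have h2 := hv2 i (by omega)
          have h3 := hN0 i hi n hn m (by omega)
          rw [Bool.eq_iff_iff, h1, h2, h3]
        · exact (hv2 e le_rfl).2 hmW
        · rw [← Bool.not_eq_true, hv1 e le_rfl]
          exact hnW
      have hen : e ≤ n := le_trans (le_max_right _ _) hn
      have hlt' := st_refine hen hlt
      have h1 := hat n s hsn
      have h2 := hat m s hsm
      have h3 := hat n (s + 1) (by omega)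
      have h4 : idx (BB s) (a n) = n := by rw [idx_BB h1.1, h1.2]
      exact (mem_AA_succ.1 h3.1).2 ⟨a m, AA_subset_BB s h2.1, hamono n m hm, by rw [h4]; exact hlt'⟩
  obtain ⟨N, hN⟩ := hstate e
  by_cases h : a N ∈ W e
  · right
    refine (Set.finite_Iio (a N)).subset ?_
    intro x hx
    obtain ⟨n, rfl⟩ := hall x hx.1
    rw [Set.mem_Iio]
    by_contra hle
    have hNn : N ≤ n := by
      by_contra hlt
      have := hamono n N (by omega)
      omega
    exact hx.2 ((hN n hNn N le_rfl).2 h)
  · left
    refine (Set.finite_Iio (a N)).subset ?_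
    intro x hx
    obtain ⟨n, rfl⟩ := hall x hx.1
    rw [Set.mem_Iio]
    by_contra hle
    have hNn : N ≤ n := by
      by_contra hlt
      have := hamono n N (by omega)
      omega
    exact h ((hN n hNn N le_rfl).1 hx.2)

/-! ### Computability -/

theorem primrec_toNat : Primrec Bool.toNat := Primrec.dom_bool _

theorem primrec_st : Primrec fun p : ℕ × ℕ × ℕ => st p.1 p.2.1 p.2.2 := by
  have h : Primrec fun p : ℕ × ℕ × ℕ => (Nat.rec (motive := fun _ => ℕ)
      (wb 0 p.2.1 p.2.2).toNat
      (fun m ih => 2 * ih + (wb (m + 1) p.2.1 p.2.2).toNat) p.1) := by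
    refine Primrec.nat_rec' (f := fun p : ℕ × ℕ × ℕ => p.1)
      (g := fun p : ℕ × ℕ × ℕ => (wb 0 p.2.1 p.2.2).toNat)
      (h := fun (p : ℕ × ℕ × ℕ) (q : ℕ × ℕ) => 2 * q.2 + (wb (q.1 + 1) p.2.1 p.2.2).toNat)
      Primrec.fst ?_ ?_
    · exact primrec_toNat.comp (primrec_wb.comp ((Primrec.const 0).pair Primrec.snd))
    · refine Primrec.nat_add.comp ?_ ?_
      · exact Primrec.nat_mul.comp (Primrec.const 2) (Primrec.snd.comp Primrec.snd)
      · exact primrec_toNat.comp (primrec_wb.comp
          ((Primrec.succ.comp (Primrec.fst.comp Primrec.snd)).pair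
            (Primrec.snd.comp Primrec.fst)))
  refine h.of_eq fun p => ?_
  obtain ⟨n, x, s⟩ := p
  induction n with
  | zero => rfl
  | succ n ih =>
    simp only [st]
    rw [← ih]

/-- list version of the index -/
def idxL (L : List ℕ) (x : ℕ) : ℕ := (L.filter (fun y => y < x)).length

/-- list version of badness -/
def BadL (s : ℕ) (L : List ℕ) (x : ℕ) : Prop :=
  ∃ y ∈ L, x < y ∧ st (idxL L x) x s < st (idxL L x) y s

instance (s : ℕ) (L : List ℕ) : DecidablePred (BadL s L) := fun x => by
  unfold BadL
  infer_instance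

/-- list version of `AA` -/
def LL : ℕ → List ℕ
  | 0 => []
  | s + 1 => (s :: LL s).filter (fun x => ¬ BadL s (s :: LL s) x)

theorem LL_lt {s x : ℕ} (h : x ∈ LL s) : x < s := by
  induction s with
  | zero => simp [LL] at h
  | succ s ih =>
    simp only [LL, List.mem_filter, List.mem_cons] at h
    rcases h.1 with rfl | h
    · omega
    · have := ih h
      omega

theorem LL_nodup (s : ℕ) : (LL s).Nodup := by
  induction s with
  | zero => simp [LL]
  | succ s ih =>
    apply List.Nodup.filter
    rw [List.nodup_cons]
    refine ⟨fun h => ?_, ih⟩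
    have := LL_lt h
    omega

theorem idxL_eq {L : List ℕ} (h : L.Nodup) (x : ℕ) : idxL L x = idx L.toFinset x := by
  unfold idxL idx
  rw [← List.toFinset_card_of_nodup (h.filter _)]
  congr 1
  ext y
  simp

theorem LL_toFinset (s : ℕ) : (LL s).toFinset = AA s := by
  induction s with
  | zero => simp [LL, AA]
  | succ s ih =>
    have hnd : (s :: LL s).Nodup := by
      rw [List.nodup_cons]
      refine ⟨fun h => ?_, LL_nodup s⟩
      have := LL_lt h
      omega
    have hfin : (s :: LL s).toFinset = insert s (AA s) := by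
      rw [List.toFinset_cons, ih]
    ext x
    have hbad : BadL s (s :: LL s) x ↔ Bad s (insert s (AA s)) x := by
      unfold BadL Bad
      rw [idxL_eq hnd, hfin, ← hfin]
      simp only [List.mem_toFinset]
    rw [List.mem_toFinset, LL, List.mem_filter, ← List.mem_toFinset, hfin, AA, Finset.mem_filter,
      decide_eq_true_eq, hbad]

theorem primrec_idxL : Primrec₂ idxL := by
  have h : Primrec₂ fun (L : List ℕ) (x : ℕ) => L.filter (fun y => y < x) :=
    (Primrec.nat_lt).listFilter
  exact Primrec.list_length.comp h

theorem pred_BadL : PrimrecPred fun p : (ℕ × List ℕ) × ℕ => BadL p.1.1 p.1.2 p.2 := by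
  have h : PrimrecRel fun (y : ℕ) (p : (ℕ × List ℕ) × ℕ) => p.2 < y ∧
      st (idxL p.1.2 p.2) p.2 p.1.1 < st (idxL p.1.2 p.2) y p.1.1 := by
    refine PrimrecPred.and ?_ ?_
    · exact Primrec.nat_lt.comp (Primrec.snd.comp Primrec.snd) Primrec.fst
    · refine Primrec.nat_lt.comp ?_ ?_
      · exact primrec_st.comp
          ((primrec_idxL.comp (Primrec.snd.comp (Primrec.fst.comp Primrec.snd))
            (Primrec.snd.comp Primrec.snd)).pair
          ((Primrec.snd.comp Primrec.snd).pair (Primrec.fst.comp (Primrec.fst.comp Primrec.snd))))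
      · exact primrec_st.comp
          ((primrec_idxL.comp (Primrec.snd.comp (Primrec.fst.comp Primrec.snd))
            (Primrec.snd.comp Primrec.snd)).pair
          (Primrec.fst.pair (Primrec.fst.comp (Primrec.fst.comp Primrec.snd))))
  exact (h.exists_mem_list.comp (Primrec.snd.comp Primrec.fst) Primrec.id)

theorem primrec_LL : Primrec LL := by
  have hstep : Primrec₂ fun (s : ℕ) (L : List ℕ) =>
      (s :: L).filter (fun x => ¬ BadL s (s :: L) x) := by
    have h1 : PrimrecRel fun (x : ℕ) (p : ℕ × List ℕ) => ¬ BadL p.1 p.2 x :=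
      (pred_BadL.comp (Primrec.snd.pair Primrec.fst)).not
    have h2 : Primrec₂ fun (L : List ℕ) (p : ℕ × List ℕ) =>
        L.filter (fun x => ¬ BadL p.1 p.2 x) := h1.listFilter
    have h3 : Primrec fun p : ℕ × List ℕ => p.1 :: p.2 :=
      Primrec.list_cons.comp Primrec.fst Primrec.snd
    exact h2.comp h3 (Primrec.fst.pair h3)
  refine (Primrec.nat_rec₁ (f := fun (s : ℕ) (L : List ℕ) =>
      (s :: L).filter (fun x => ¬ BadL s (s :: L) x)) [] hstep).of_eq fun s => ?_
  induction s with
  | zero => rfl
  | succ s ih =>
    simp only [LL]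
    rw [← ih]

theorem re_MM : RE MM := by
  have h1 : PrimrecRel fun (L : List ℕ) (x : ℕ) => ∃ y ∈ L, y = x :=
    (Primrec.eq (α := ℕ)).exists_mem_list
  have h2 : PrimrecPred fun q : ℕ × ℕ => q.1 < q.2 ∧ ¬ ∃ y ∈ LL q.2, y = q.1 :=
    (Primrec.nat_lt.comp Primrec.fst Primrec.snd).and
      (h1.comp (primrec_LL.comp Primrec.snd) Primrec.fst).not
  refine (re_exists' h2).of_eq fun x => ?_
  simp only [MM, Set.mem_ofPred_eq, ← LL_toFinset, List.mem_toFinset, exists_eq_right]

/-- There is a maximal set. -/
theorem exists_maximal : ∃ M : Set ℕ, RE M ∧ (Mᶜ).Infinite ∧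
    ∀ V, RE V → (Mᶜ ∩ V).Finite ∨ (Mᶜ \ V).Finite := by
  refine ⟨MM, re_MM, MM_compl_infinite, fun V hV => ?_⟩
  obtain ⟨e, rfl⟩ := re_iff.1 hV
  exact MM_cohesive e

end Pool.Agent.H53.DS
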